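import Mathlib

/-!
# The numbers `c(n,j) = (-1)^j C(n,j) C(n+j,j)`: partial fractions, sums and a derivative formula
-/

set_option autoImplicit false

namespace Pool.Agent.L7h22.C42

open Finset

/-- `c(n,j) = (-1)^j C(n+j,2j) C(2j,j)` -/
def c (n j : ℕ) : ℚ := (-1) ^ j * ((n + j).choose (2 * j) : ℚ) * ((2 * j).choose j : ℚ)

theorem c_zero (n : ℕ) : c n 0 = 1 := by simp [c]

theorem c_big {n j : ℕ} (h : n < j) : c n j = 0 := by
  unfold c
  rw [Nat.choose_eq_zero_of_lt (by omega)]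
  simp

theorem ch_top (n j : ℕ) : ((n + 1 + j).choose (2 * j + 1) : ℚ) * (2 * j + 1) =
    (n + 1 + j) * ((n + j).choose (2 * j) : ℚ) := by
  have h := Nat.add_one_mul_choose_eq (n + j) (2 * j)
  have := congrArg (Nat.cast : ℕ → ℚ) h
  push_cast at this
  rw [show n + 1 + j = n + j + 1 by ring]
  linear_combination -this

theorem ch_down (n j : ℕ) : ((n + j).choose (2 * j + 1) : ℚ) * (2 * j + 1) =
    ((n : ℚ) - j) * ((n + j).choose (2 * j) : ℚ) := by
  rcases Nat.lt_or_ge n j with h | h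
  · rw [Nat.choose_eq_zero_of_lt (by omega), Nat.choose_eq_zero_of_lt (by omega)]
    simp
  · have h1 := Nat.choose_succ_right_eq (n + j) (2 * j)
    have := congrArg (Nat.cast : ℕ → ℚ) h1
    rw [show n + j - 2 * j = n - j by omega] at this
    push_cast at this
    rw [Nat.cast_sub h] at this
    linear_combination this

theorem ch_up (n j : ℕ) : ((n + 1 + (j + 1)).choose (2 * (j + 1)) : ℚ) * ((2 * j + 2) * (2 * j + 1)) =
    (n + j + 2) * (n + j + 1) * ((n + j).choose (2 * j) : ℚ) := by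
  have h := Nat.add_one_mul_choose_eq (n + 1 + j) (2 * j + 1)
  have h1 := congrArg (Nat.cast : ℕ → ℚ) h
  have h2 := ch_top n j
  push_cast at h1
  rw [show n + 1 + (j + 1) = n + 1 + j + 1 by ring, show 2 * (j + 1) = 2 * j + 1 + 1 by ring]
  linear_combination (-(2 * (j : ℚ) + 1)) * h1 + (n + j + 2 : ℚ) * h2

theorem ch_side (n j : ℕ) : ((n + 1 + j).choose (2 * j) : ℚ) * (n + 1 - j) =
    ((n + j).choose (2 * j) : ℚ) * (n + 1 + j) := by
  rcases Nat.lt_or_ge (n + 1) j with h | h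
  · rw [Nat.choose_eq_zero_of_lt (by omega), Nat.choose_eq_zero_of_lt (by omega)]
    simp
  · have h1 := Nat.choose_mul_succ_eq (n + j) (2 * j)
    have := congrArg (Nat.cast : ℕ → ℚ) h1
    rw [show n + j + 1 - 2 * j = n + 1 - j by omega] at this
    push_cast at this
    rw [Nat.cast_sub h] at this
    push_cast at this
    rw [show n + 1 + j = n + j + 1 by ring]
    linear_combination -this

theorem ch_diag (n j : ℕ) : ((n + (j + 1)).choose (2 * (j + 1)) : ℚ) * ((2 * j + 2) * (2 * j + 1)) =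
    (n + j + 1) * (n - j) * ((n + j).choose (2 * j) : ℚ) := by
  have h := Nat.add_one_mul_choose_eq (n + j) (2 * j + 1)
  have h1 := congrArg (Nat.cast : ℕ → ℚ) h
  have h2 := ch_down n j
  push_cast at h1
  rw [show n + (j + 1) = n + j + 1 by ring, show 2 * (j + 1) = 2 * j + 1 + 1 by ring]
  linear_combination (-(2 * (j : ℚ) + 1)) * h1 + (n + j + 1 : ℚ) * h2

theorem cb_succ (j : ℕ) : ((2 * (j + 1)).choose (j + 1) : ℚ) * (j + 1) = 2 * (2 * j + 1) * ((2 * j).choose j : ℚ) := by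
  have h := Nat.succ_mul_centralBinom_succ j
  have := congrArg (Nat.cast : ℕ → ℚ) h
  simp only [Nat.centralBinom] at this
  push_cast at this
  linear_combination this

theorem c_j (n j : ℕ) : c n (j + 1) * (2 * j + 2) ^ 2 = ((2 * j + 1) ^ 2 - (2 * n + 1) ^ 2) * c n j := by
  unfold c
  have h1 := ch_diag n j
  have h2 := cb_succ j
  have h0 : (2 * (j : ℚ) + 1) ≠ 0 := by positivity
  apply mul_right_cancel₀ h0
  rw [pow_succ]
  linear_combination (-(-1) ^ j * ((2 * (j + 1)).choose (j + 1) : ℚ) * (2 * j + 2)) * h1 -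
    (2 * (-1) ^ j * (n + j + 1) * (n - j) * ((n + j).choose (2 * j) : ℚ)) * h2

theorem c_n (n j : ℕ) : c (n + 1) j * (n + 1 - j) = c n j * (n + 1 + j) := by
  unfold c
  have h := ch_side n j
  linear_combination (-1) ^ j * ((2 * j).choose j : ℚ) * h

theorem c_up (n j : ℕ) : c (n + 1) (j + 1) * (j + 1) ^ 2 = -((n + j + 2) * (n + j + 1) * c n j) := by
  unfold c
  have h1 := ch_up n j
  have h2 := cb_succ j
  have h0 : (2 * (2 * (j : ℚ) + 1)) ≠ 0 := by positivity
  apply mul_right_cancel₀ h0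
  rw [pow_succ]
  linear_combination (-(-1) ^ j * ((2 * (j + 1)).choose (j + 1) : ℚ) * (j + 1)) * h1 -
    ((-1) ^ j * (n + j + 2) * (n + j + 1) * ((n + j).choose (2 * j) : ℚ)) * h2

theorem c_pair (n m : ℕ) : ∑ j ∈ range (m + 1), (c (n + 1) j + c n j) =
    2 / (n + 1) * c n m * (n + m + 1) := by
  have h0 : ((n : ℚ) + 1) ≠ 0 := by positivity
  induction m with
  | zero =>
    rw [sum_range_one, c_zero, c_zero]
    push_cast
    field_simp
    ring
  | succ m ih =>
    rw [sum_range_succ, ih]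
    have h1 := c_up n m
    have h2 := c_j n m
    have h3 : (((m : ℚ) + 1) ^ 2) ≠ 0 := by positivity
    have e1 : c (n + 1) (m + 1) = -((n + m + 2) * (n + m + 1) * c n m) / (m + 1) ^ 2 := by
      rw [eq_div_iff h3]; exact h1
    have e2 : c n (m + 1) = -((n - m) * (n + m + 1) * c n m) / (m + 1) ^ 2 := by
      rw [eq_div_iff h3]
      linear_combination (1 / 4) * h2
    rw [e1, e2]
    push_cast
    field_simp
    ring

theorem c_sum (n : ℕ) : ∑ j ∈ range (n + 2), (c (n + 1) j + c n j) = 0 := by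
  rw [c_pair n (n + 1), c_big (by omega)]
  ring

/-- partial fractions -/
theorem pf (R : ℕ) (x : ℚ) (hx : ∀ j : ℕ, x ≠ 2 * j) :
    ∑ j ∈ range (R + 1), c R j * (x / (x - 2 * j)) = ∏ i ∈ range R, ((2 * (i + 1) + x) / (2 * (i + 1) - x)) := by
  have hx' : ∀ j : ℕ, x - 2 * j ≠ 0 := fun j => sub_ne_zero.2 (hx j)
  induction R with
  | zero =>
    have h := hx' 0
    push_cast at h
    rw [mul_zero, sub_zero] at h
    simp [c_zero, h]
  | succ R ih =>
    rw [prod_range_succ, ← ih]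
    have h1 : (2 * ((R : ℚ) + 1) - x) ≠ 0 := by
      have := hx' (R + 1)
      push_cast at this
      intro h
      apply this
      linarith
    rw [mul_div_assoc', eq_div_iff h1]
    have e1 : ∑ j ∈ range (R + 1), c R j * (x / (x - 2 * j)) =
        ∑ j ∈ range (R + 2), c R j * (x / (x - 2 * j)) := by
      rw [sum_range_succ _ (R + 1), c_big (by omega), zero_mul, add_zero]
    rw [e1, ← sub_eq_zero, sum_mul, sum_mul, ← sum_sub_distrib]
    have h2 : ∑ j ∈ range (R + 2), (c (R + 1) j * (x / (x - 2 * j)) * (2 * ((R : ℚ) + 1) - x) -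
        c R j * (x / (x - 2 * j)) * (2 * ((R : ℚ) + 1) + x)) =
        ∑ j ∈ range (R + 2), (-x) * (c (R + 1) j + c R j) := by
      refine sum_congr rfl fun j _ => ?_
      have h3 := c_n R j
      have h4 := hx' j
      field_simp
      linear_combination (2 * x) * h3
    rw [h2, ← mul_sum, c_sum, mul_zero]

/-- `∑_{j=1}^n c(n,j)/j = -2 H_n` -/
theorem c_harm (n : ℕ) : ∑ j ∈ range n, c n (j + 1) / (j + 1) = -2 * ∑ i ∈ range n, 1 / ((i : ℚ) + 1) := by
  induction n with
  | zero => simp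
  | succ n ih =>
    have h0 : ((n : ℚ) + 1) ≠ 0 := by positivity
    have e1 : ∑ j ∈ range n, c n (j + 1) / ((j : ℚ) + 1) = ∑ j ∈ range (n + 1), c n (j + 1) / ((j : ℚ) + 1) := by
      rw [sum_range_succ _ n, c_big (by omega), zero_div, add_zero]
    have h1 : ∑ j ∈ range (n + 1), c (n + 1) (j + 1) / ((j : ℚ) + 1) - ∑ j ∈ range (n + 1), c n (j + 1) / ((j : ℚ) + 1) =
        1 / (n + 1) * ∑ j ∈ range (n + 1), (c (n + 1) (j + 1) + c n (j + 1)) := by
      rw [← sum_sub_distrib, mul_sum]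
      refine sum_congr rfl fun j _ => ?_
      have h3 := c_n n (j + 1)
      have h4 : ((j : ℚ) + 1) ≠ 0 := by positivity
      push_cast at h3
      field_simp
      linear_combination h3
    have h2 := c_sum n
    rw [sum_range_succ', c_zero, c_zero] at h2
    rw [sum_range_succ (fun i : ℕ => 1 / ((i : ℚ) + 1)), mul_add, ← ih, e1]
    have h5 : ∑ j ∈ range (n + 1), (c (n + 1) (j + 1) + c n (j + 1)) = -2 := by linarith
    rw [h5] at h1
    have h6 : -2 * (1 / ((n : ℚ) + 1)) = 1 / (n + 1) * -2 := by ring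
    rw [h6, ← h1]
    ring

/-- the extrapolation weights -/
def W (R n : ℕ) : ℚ := (-1) ^ n * (2 * n + 1) * ((2 * R).choose (R + n) : ℚ) / (R + n + 1)

theorem W_self (R : ℕ) : W R R = (-1) ^ R := by
  unfold W
  have : ((R : ℚ) + R + 1) ≠ 0 := by positivity
  rw [show R + R = 2 * R by ring, Nat.choose_self]
  field_simp
  push_cast
  ring

theorem W_tele (R j m : ℕ) (hj : j < R) : ∑ n ∈ range m, W R n * ((n + j).choose (2 * j) : ℚ) =
    -(-1) ^ m / ((R : ℚ) - j) * ((2 * R).choose (R + m) : ℚ) * ((m + j).choose (2 * j + 1) : ℚ) * (2 * j + 1) := by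
  have h0 : ((R : ℚ) - j) ≠ 0 := by
    have : (j : ℚ) < R := by exact_mod_cast hj
    linarith
  induction m with
  | zero =>
    rw [sum_range_zero, zero_add, Nat.choose_eq_zero_of_lt (show j < 2 * j + 1 by omega)]
    simp
  | succ m ih =>
    rw [sum_range_succ, ih]
    have h1 : ((R : ℚ) + m + 1) ≠ 0 := by positivity
    have h2 : (2 * (j : ℚ) + 1) ≠ 0 := by positivity
    have e1 : ((2 * R).choose (R + (m + 1)) : ℚ) = ((2 * R).choose (R + m) : ℚ) * (R - m) / (R + m + 1) := by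
      rw [eq_div_iff h1]
      rcases Nat.lt_or_ge R m with h | h
      · rw [Nat.choose_eq_zero_of_lt (by omega), Nat.choose_eq_zero_of_lt (by omega)]
        simp
      · have h3 := Nat.choose_succ_right_eq (2 * R) (R + m)
        have := congrArg (Nat.cast : ℕ → ℚ) h3
        rw [show 2 * R - (R + m) = R - m by omega] at this
        push_cast at this
        rw [Nat.cast_sub h] at this
        rw [show R + (m + 1) = R + m + 1 by ring]
        exact this
    have e2 : ((m + 1 + j).choose (2 * j + 1) : ℚ) = (m + 1 + j) * ((m + j).choose (2 * j) : ℚ) / (2 * j + 1) := by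
      rw [eq_div_iff h2]
      exact ch_top m j
    have e3 : ((m + j).choose (2 * j + 1) : ℚ) = ((m : ℚ) - j) * ((m + j).choose (2 * j) : ℚ) / (2 * j + 1) := by
      rw [eq_div_iff h2]
      exact ch_down m j
    rw [e1, e2, e3]
    unfold W
    rw [pow_succ]
    field_simp
    ring

theorem W_orth (R j : ℕ) (hj : j < R) : ∑ n ∈ range R, W R n * c n j = -((-1) ^ R * c R j) := by
  have h := W_tele R j (R + 1) hj
  rw [Nat.choose_eq_zero_of_lt (show 2 * R < R + (R + 1) by omega)] at h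
  rw [Nat.cast_zero, mul_zero, zero_mul, zero_mul, sum_range_succ, W_self] at h
  have e : ∑ n ∈ range R, W R n * c n j = (-1) ^ j * ((2 * j).choose j : ℚ) *
      ∑ n ∈ range R, W R n * ((n + j).choose (2 * j) : ℚ) := by
    rw [mul_sum]
    refine sum_congr rfl fun n _ => ?_
    unfold c
    ring
  rw [e]
  unfold c
  linear_combination (-1) ^ j * ((2 * j).choose j : ℚ) * h

theorem sq_ne {R i : ℕ} (h : i < R) : ((2 * (R : ℚ) + 1) ^ 2 - (2 * i + 1) ^ 2) ≠ 0 := by
  have h1 : (i : ℚ) < R := by exact_mod_cast h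
  have h2 : (0 : ℚ) ≤ i := by positivity
  have : (2 * (R : ℚ) + 1) ^ 2 - (2 * i + 1) ^ 2 = 4 * ((R - i) * (R + i + 1)) := by ring
  rw [this]
  have h3 : 0 < ((R : ℚ) - i) * (R + i + 1) := mul_pos (by linarith) (by linarith)
  positivity

/-- the derivative formula -/
theorem W_der (R d : ℕ) (hd : d ≤ R) :
    ∑ n ∈ range R, W R n / ((2 * (R : ℚ) + 1) ^ 2 - (2 * n + 1) ^ 2) * c n (R - d) =
    -((-1) ^ R * c R (R - d)) * ∑ i ∈ Ico (R - d) R, 1 / ((2 * (R : ℚ) + 1) ^ 2 - (2 * i + 1) ^ 2) := by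
  induction d with
  | zero =>
    rw [Nat.sub_zero, Ico_self, sum_empty, mul_zero]
    refine sum_eq_zero fun n hn => ?_
    rw [mem_range] at hn
    rw [c_big hn, mul_zero]
  | succ d ih =>
    obtain ⟨j, hj⟩ : ∃ j, R - (d + 1) = j := ⟨_, rfl⟩
    have ih := ih (by omega)
    rw [show R - d = j + 1 by omega] at ih
    rw [hj]
    have hjR : j < R := by omega
    have h1 := W_orth R j hjR
    have h2 : (2 * (j : ℚ) + 2) ^ 2 * ∑ n ∈ range R, W R n / ((2 * (R : ℚ) + 1) ^ 2 - (2 * n + 1) ^ 2) * c n (j + 1) =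
        ((2 * j + 1) ^ 2 - (2 * (R : ℚ) + 1) ^ 2) * ∑ n ∈ range R, W R n / ((2 * (R : ℚ) + 1) ^ 2 - (2 * n + 1) ^ 2) * c n j +
        ∑ n ∈ range R, W R n * c n j := by
      rw [mul_sum, mul_sum, ← sum_add_distrib]
      refine sum_congr rfl fun n hn => ?_
      rw [mem_range] at hn
      have h3 := c_j n j
      have h4 := sq_ne hn
      field_simp
      linear_combination W R n * h3
    have h5 := c_j R j
    have h6 := sq_ne hjR
    have e : ∑ i ∈ Ico j R, 1 / ((2 * (R : ℚ) + 1) ^ 2 - (2 * i + 1) ^ 2) =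
        1 / ((2 * (R : ℚ) + 1) ^ 2 - (2 * j + 1) ^ 2) +
        ∑ i ∈ Ico (j + 1) R, 1 / ((2 * (R : ℚ) + 1) ^ 2 - (2 * i + 1) ^ 2) := by
      rw [Finset.sum_eq_sum_Ico_succ_bot hjR]
    rw [e]
    rw [ih, h1] at h2
    apply mul_left_cancel₀ h6
    set S := ∑ i ∈ Ico (j + 1) R, 1 / ((2 * (R : ℚ) + 1) ^ 2 - (2 * i + 1) ^ 2)
    set T := ∑ n ∈ range R, W R n / ((2 * (R : ℚ) + 1) ^ 2 - (2 * n + 1) ^ 2) * c n j
    have h7 : ((2 * (R : ℚ) + 1) ^ 2 - (2 * j + 1) ^ 2) * (1 / ((2 * (R : ℚ) + 1) ^ 2 - (2 * j + 1) ^ 2)) = 1 := by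
      field_simp
    linear_combination h2 + (-1) ^ R * S * h5 + (-1) ^ R * c R j * h7

end Pool.Agent.L7h22.C42
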