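import Mathlib

/-!
# Exact formulas for two truncated sums

`∑_{k≤n} (4k+1) u_k^4 = (2n+1)^2 u_n^2 ∑_{j≤n} u_j^2/(2n+1-2j)` and
`∑_{k≤n} (3k+1) u_k^3 4^k = (2n+1)^2 u_n^2 ∑_{j≤n} C(n,j)^2/(2j+1)`, where `u_k = C(2k,k)/4^k`.
-/

set_option autoImplicit false

namespace Pool.Agent.L7h22.C42

open Finset

/-- `u_k = C(2k,k)/4^k` -/
def u (k : ℕ) : ℚ := ((2 * k).choose k : ℚ) / 4 ^ k

theorem u_zero : u 0 = 1 := by simp [u]

theorem u_succ (k : ℕ) : u (k + 1) * (2 * k + 2) = u k * (2 * k + 1) := by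
  have h := Nat.succ_mul_centralBinom_succ k
  have h1 : ((k : ℚ) + 1) * ((2 * (k + 1)).choose (k + 1) : ℚ) = 2 * (2 * k + 1) * ((2 * k).choose k : ℚ) := by
    have := congrArg (Nat.cast : ℕ → ℚ) h
    simp only [Nat.centralBinom] at this
    push_cast at this
    exact this
  unfold u
  rw [pow_succ]
  field_simp
  linear_combination 2 * h1

theorem odd_ne (a b : ℤ) : (2 * (a : ℚ) + 1 - 2 * b) ≠ 0 := by
  intro h
  have h2 : 2 * a + 1 - 2 * b = 0 := by exact_mod_cast h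
  omega

theorem odd_ne' (a b : ℕ) : (2 * (a : ℚ) + 1 - 2 * b) ≠ 0 := by
  exact_mod_cast odd_ne (a : ℤ) (b : ℤ)

theorem odd_ne'' (a b : ℕ) : (2 * (a : ℚ) - 1 - 2 * b) ≠ 0 := by
  intro h
  have h2 : 2 * (a : ℤ) - 1 - 2 * (b : ℤ) = 0 := by exact_mod_cast h
  omega

theorem tele1 (n m : ℕ) : ∑ j ∈ range m, u j ^ 2 * ((2 * (n : ℚ) + 1) ^ 2 / (2 * n + 1 - 2 * j) -
    (2 * n) ^ 2 / (2 * n - 1 - 2 * j)) = -(2 * m) ^ 2 * u m ^ 2 / (2 * n + 1 - 2 * m) := by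
  induction m with
  | zero => simp
  | succ m ih =>
    rw [sum_range_succ, ih]
    have h1 := odd_ne' n m
    have h2 := odd_ne'' n m
    have h3 : ((2 : ℚ) * m + 2) ≠ 0 := by positivity
    have h4 : (2 * (n : ℚ) + 1 - 2 * ((m + 1 : ℕ) : ℚ)) ≠ 0 := odd_ne' n (m + 1)
    have e : u (m + 1) = u m * (2 * m + 1) / (2 * m + 2) := by
      rw [eq_div_iff h3]
      exact u_succ m
    rw [e]
    push_cast at h4 ⊢
    have h5 : (2 * (n : ℚ) + 1 - 2 * (m + 1)) = 2 * n - 1 - 2 * m := by ring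
    rw [h5]
    field_simp
    ring

/-- `a_n = ∑_{j≤n} u_j^2/(2n+1-2j)` -/
def av (n : ℕ) : ℚ := ∑ j ∈ range (n + 1), u j ^ 2 / (2 * (n : ℚ) + 1 - 2 * j)

theorem av_succ (n : ℕ) : (2 * (n : ℚ) + 3) ^ 2 * av (n + 1) = (2 * n + 2) ^ 2 * av n + (4 * n + 5) * u (n + 1) ^ 2 := by
  have h := tele1 (n + 1) (n + 1)
  unfold av
  rw [sum_range_succ]
  have h1 : ∑ j ∈ range (n + 1), u j ^ 2 * ((2 * ((n + 1 : ℕ) : ℚ) + 1) ^ 2 / (2 * ((n + 1 : ℕ) : ℚ) + 1 - 2 * j) -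
    (2 * ((n + 1 : ℕ) : ℚ)) ^ 2 / (2 * ((n + 1 : ℕ) : ℚ) - 1 - 2 * j)) =
    (2 * (n : ℚ) + 3) ^ 2 * ∑ j ∈ range (n + 1), u j ^ 2 / (2 * ((n + 1 : ℕ) : ℚ) + 1 - 2 * j) -
    (2 * (n : ℚ) + 2) ^ 2 * ∑ j ∈ range (n + 1), u j ^ 2 / (2 * (n : ℚ) + 1 - 2 * j) := by
    rw [mul_sum, mul_sum, ← sum_sub_distrib]
    refine sum_congr rfl fun j _ => ?_
    push_cast
    have h5 : (2 * ((n : ℚ) + 1) - 1 - 2 * j) = 2 * n + 1 - 2 * j := by ring
    rw [h5]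
    ring
  rw [h1] at h
  push_cast at h ⊢
  have h6 : (2 * ((n : ℚ) + 1) + 1 - 2 * ((n : ℚ) + 1)) = 1 := by ring
  rw [h6] at h ⊢
  rw [div_one] at h ⊢
  linear_combination h

theorem A_exact (n : ℕ) : ∑ k ∈ range (n + 1), (4 * (k : ℚ) + 1) * u k ^ 4 =
    (2 * n + 1) ^ 2 * u n ^ 2 * av n := by
  induction n with
  | zero => simp [av, u_zero]
  | succ n ih =>
    rw [sum_range_succ, ih]
    have h := av_succ n
    have h2 := u_succ n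
    have h3 : u n ^ 2 * (2 * n + 1) ^ 2 = u (n + 1) ^ 2 * (2 * n + 2) ^ 2 := by
      rw [← mul_pow, ← mul_pow, h2]
    push_cast
    linear_combination av n * h3 - u (n + 1) ^ 2 * h

/-- `b_n = ∑_{j≤n} C(n,j)^2/(2j+1)` -/
def bv (n : ℕ) : ℚ := ∑ j ∈ range (n + 1), (n.choose j : ℚ) ^ 2 / (2 * j + 1)

theorem sum_sq (n : ℕ) : ∑ j ∈ range (n + 1), (n.choose j : ℚ) ^ 2 = ((2 * n).choose n : ℚ) := by
  have h := Nat.sum_range_choose_sq n
  exact_mod_cast h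

theorem sum_j_sq (n : ℕ) : 2 * ∑ j ∈ range (n + 1), (j : ℚ) * (n.choose j : ℚ) ^ 2 = n * ((2 * n).choose n : ℚ) := by
  have h := sum_range_reflect (fun j => (j : ℚ) * (n.choose j : ℚ) ^ 2) (n + 1)
  have h2 : ∑ j ∈ range (n + 1), ((n + 1 - 1 - j : ℕ) : ℚ) * (n.choose (n + 1 - 1 - j) : ℚ) ^ 2 =
      ∑ j ∈ range (n + 1), ((n : ℚ) - j) * (n.choose j : ℚ) ^ 2 := by
    refine sum_congr rfl fun j hj => ?_
    rw [mem_range] at hj
    rw [Nat.add_sub_cancel, Nat.cast_sub (by omega), Nat.choose_symm (by omega)]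
  rw [h2] at h
  rw [two_mul]
  nth_rewrite 1 [← h]
  rw [← sum_add_distrib, ← sum_sq, mul_sum]
  refine sum_congr rfl fun j _ => ?_
  ring

theorem bv_succ (n : ℕ) : (2 * (n : ℚ) + 3) ^ 2 * bv (n + 1) = (2 * n + 2) ^ 2 * bv n +
    (3 * n + 4) * ((2 * (n + 1)).choose (n + 1) : ℚ) := by
  have h1 : (2 * (n : ℚ) + 2) ^ 2 * bv n = ∑ j ∈ range (n + 1 + 1),
      (2 * ((n : ℚ) + 1 - j)) ^ 2 * ((n + 1).choose j : ℚ) ^ 2 / (2 * j + 1) := by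
    rw [sum_range_succ]
    have e0 : (2 * ((n : ℚ) + 1 - ((n + 1 : ℕ) : ℚ))) ^ 2 * ((n + 1).choose (n + 1) : ℚ) ^ 2 / (2 * ((n + 1 : ℕ) : ℚ) + 1) = 0 := by
      push_cast
      ring
    rw [e0, add_zero]
    unfold bv
    rw [mul_sum]
    refine sum_congr rfl fun j hj => ?_
    rw [mem_range] at hj
    have h := Nat.choose_mul_succ_eq n j
    have h2 : (n.choose j : ℚ) * (n + 1) = ((n + 1).choose j : ℚ) * ((n : ℚ) + 1 - j) := by
      have := congrArg (Nat.cast : ℕ → ℚ) h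
      push_cast at this
      rw [Nat.cast_sub (by omega)] at this
      push_cast at this
      exact this
    have h3 : (2 * (j : ℚ) + 1) ≠ 0 := by positivity
    field_simp
    linear_combination ((n.choose j : ℚ) * (n + 1) + ((n + 1).choose j : ℚ) * ((n : ℚ) + 1 - j)) * h2
  rw [h1]
  have h4 := sum_sq (n + 1)
  have h5 := sum_j_sq (n + 1)
  unfold bv
  rw [mul_sum]
  have h6 : ∑ i ∈ range (n + 1 + 1), (2 * (n : ℚ) + 3) ^ 2 * (((n + 1).choose i : ℚ) ^ 2 / (2 * i + 1)) -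
      ∑ j ∈ range (n + 1 + 1), (2 * ((n : ℚ) + 1 - j)) ^ 2 * ((n + 1).choose j : ℚ) ^ 2 / (2 * j + 1) =
      (4 * n + 5) * ∑ j ∈ range (n + 1 + 1), ((n + 1).choose j : ℚ) ^ 2 -
      2 * ∑ j ∈ range (n + 1 + 1), (j : ℚ) * ((n + 1).choose j : ℚ) ^ 2 := by
    rw [← sum_sub_distrib, mul_sum, mul_sum, ← sum_sub_distrib]
    refine sum_congr rfl fun j _ => ?_
    have h3 : (2 * (j : ℚ) + 1) ≠ 0 := by positivity
    field_simp
    ring
  rw [h4, h5] at h6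
  push_cast at h6 ⊢
  linear_combination h6

theorem B_exact (n : ℕ) : ∑ k ∈ range (n + 1), (3 * (k : ℚ) + 1) * u k ^ 3 * 4 ^ k =
    (2 * n + 1) ^ 2 * u n ^ 2 * bv n := by
  induction n with
  | zero => simp [bv, u_zero]
  | succ n ih =>
    rw [sum_range_succ, ih]
    have h := bv_succ n
    have h2 := u_succ n
    have h3 : u n ^ 2 * (2 * n + 1) ^ 2 = u (n + 1) ^ 2 * (2 * n + 2) ^ 2 := by
      rw [← mul_pow, ← mul_pow, h2]
    have h4 : u (n + 1) * 4 ^ (n + 1) = ((2 * (n + 1)).choose (n + 1) : ℚ) := by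
      unfold u
      rw [div_mul_cancel₀]
      positivity
    push_cast
    linear_combination bv n * h3 - u (n + 1) ^ 2 * h + (3 * n + 4) * u (n + 1) ^ 2 * h4

end Pool.Agent.L7h22.C42
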