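import Pool.Agent.L7h22.C42.PartB

/-!
# Comparison of the two sums modulo `p^{r+4}`
-/

set_option autoImplicit false

namespace Pool.Agent.L7h22.C42

open Finset Pool.Agent.Helper857.Pad Pool.Agent.Helper857.W

variable {p : ℕ} [hp : Fact p.Prime] {a R : ℕ}

theorem Wb_I (ha : 1 ≤ a) (hN : 2 * R + 1 = p ^ a) :
    I p 4 (Wb R + (1 / 2) * SS ((2 * R + 1 : ℕ) : ℚ) R - KK ((2 * R + 1 : ℕ) : ℚ) R) := by
  have e0 : Wb R + (1 / 2) * SS ((2 * R + 1 : ℕ) : ℚ) R - KK ((2 * R + 1 : ℕ) : ℚ) R =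
      ∑ i ∈ range R, (((2 * R).choose (R - 1 - i) : ℚ) ^ 2 *
      (((2 * R + 1 : ℕ) : ℚ) / (((2 * R + 1 : ℕ) : ℚ) - 2 * (i + 1)) + ((2 * R + 1 : ℕ) : ℚ) / (((2 * R + 1 : ℕ) : ℚ) + 2 * (i + 1))) +
      (1 / 2) * (((2 * R + 1 : ℕ) : ℚ) / ((i : ℚ) + 1)) ^ 2 - (((2 * R + 1 : ℕ) : ℚ) / ((i : ℚ) + 1)) ^ 2 *
    ∑ k ∈ range (R - 1 - i), (((2 * R + 1 : ℕ) : ℚ) / ((k : ℚ) + 1))) := by
    rw [← KK_range2, SS_range]
    unfold Wb
    rw [mul_sum, ← sum_add_distrib, ← sum_sub_distrib]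
  rw [e0]
  apply I.sum
  intro i hi
  rw [mem_range] at hi
  have hx := ev_I (p := p) ha hN hi
  have hp1 := prod_one_sub (p := p) (m := 1) (fun k => (((2 * R + 1 : ℕ) : ℚ) / ((k : ℚ) + 1))) (R - 1 - i)
    (fun k hk => g1_I (p := p) ha hN (by omega))
  have hs1 : I p 1 (∑ k ∈ range (R - 1 - i), (((2 * R + 1 : ℕ) : ℚ) / ((k : ℚ) + 1))) := by
    apply I.sum
    intro k hk
    rw [mem_range] at hk
    exact g1_I (p := p) ha hN (by omega)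
  rw [ch_sq]
  have e1 : ((2 * R + 1 : ℕ) : ℚ) / ((i : ℚ) + 1) = 2 * (((2 * R + 1 : ℕ) : ℚ) / (2 * ((i : ℚ) + 1))) := by
    field_simp
  rw [e1]
  obtain ⟨n0, m0, i0⟩ := unit (p := p) (x := 1 - (((2 * R + 1 : ℕ) : ℚ) / (2 * ((i : ℚ) + 1))) ^ 2) (by
    have : 1 - (((2 * R + 1 : ℕ) : ℚ) / (2 * ((i : ℚ) + 1))) ^ 2 - 1 = -((((2 * R + 1 : ℕ) : ℚ) / (2 * ((i : ℚ) + 1))) ^ 2) := by ring
    rw [this]; exact ((hx.pow 2).mono (by norm_num)).neg)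
  have e2 : ((2 * R + 1 : ℕ) : ℚ) / (((2 * R + 1 : ℕ) : ℚ) - 2 * (i + 1)) + ((2 * R + 1 : ℕ) : ℚ) / (((2 * R + 1 : ℕ) : ℚ) + 2 * (i + 1)) =
      -2 * (((2 * R + 1 : ℕ) : ℚ) / (2 * ((i : ℚ) + 1))) ^ 2 * (1 - (((2 * R + 1 : ℕ) : ℚ) / (2 * ((i : ℚ) + 1))) ^ 2)⁻¹ := by
    rw [← div_eq_mul_inv, eq_div_iff n0]
    have h1 : ((2 * R + 1 : ℕ) : ℚ) - 2 * (i + 1) ≠ 0 := by
      have := N_ne R (i + 1)
      push_cast at this ⊢
      exact sub_ne_zero.2 this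
    have h2 : ((2 * R + 1 : ℕ) : ℚ) + 2 * (i + 1) ≠ 0 := by positivity
    have h3 : ((i : ℚ) + 1) ≠ 0 := by positivity
    field_simp
    ring
  rw [e2]
  set x := ((2 * R + 1 : ℕ) : ℚ) / (2 * ((i : ℚ) + 1))
  have hinv : (1 - x ^ 2) * (1 - x ^ 2)⁻¹ = 1 := mul_inv_cancel₀ n0
  set v := (1 - x ^ 2)⁻¹
  set P := ∏ k ∈ range (R - 1 - i), (1 - ((2 * R + 1 : ℕ) : ℚ) / ((k : ℚ) + 1))
  set S := ∑ k ∈ range (R - 1 - i), (((2 * R + 1 : ℕ) : ℚ) / ((k : ℚ) + 1))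
  have e3 : P ^ 2 * (-2 * x ^ 2 * v) + 1 / 2 * (2 * x) ^ 2 - (2 * x) ^ 2 * S =
      (-2) * (x ^ 2 * (x ^ 2 * (P ^ 2 * v) + (P - (1 - S)) * (P + 1 - S) + S ^ 2)) := by
    linear_combination (-(2 * x ^ 2 * P ^ 2)) * hinv
  rw [e3]
  have x2 : I p 2 (x ^ 2) := by simpa using hx.pow 2
  have s2 : I p 2 (S ^ 2) := by simpa using hs1.pow 2
  have mP : P ∈ Zp p := by
    have : P = (P - (1 - S)) + 1 - S := by ring
    rw [this]
    exact (Zp p).sub_mem ((Zp p).add_mem hp1.mem (Zp p).one_mem) hs1.mem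
  have hp2 : I p 2 (P - (1 - S)) := by simpa using hp1
  exact I.mem_mul (by exact_mod_cast int_mem (-2)) (x2.mul (((x2.mul_mem ((Zp p).mul_mem ((Zp p).pow_mem mP 2) m0)).add
    (hp2.mul_mem ((Zp p).sub_mem ((Zp p).add_mem mP (Zp p).one_mem) hs1.mem))).add s2))

theorem S2 (ha : 1 ≤ a) (hN : 2 * R + 1 = p ^ a) : I p 2 (SS ((2 * R + 1 : ℕ) : ℚ) R) := by
  rw [SS_range]
  apply I.sum
  intro i hi
  rw [mem_range] at hi
  simpa using (g1_I (p := p) ha hN (i := i) (by omega)).pow 2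

theorem K3 (ha : 1 ≤ a) (hN : 2 * R + 1 = p ^ a) : I p 3 (KK ((2 * R + 1 : ℕ) : ℚ) R) := by
  rw [← KK_range2]
  apply I.sum
  intro i hi
  rw [mem_range] at hi
  have h1 : I p 2 ((((2 * R + 1 : ℕ) : ℚ) / ((i : ℚ) + 1)) ^ 2) := by
    simpa using (g1_I (p := p) ha hN (i := i) (by omega)).pow 2
  have h2 : I p 1 (∑ k ∈ range (R - 1 - i), (((2 * R + 1 : ℕ) : ℚ) / ((k : ℚ) + 1))) := by
    apply I.sum
    intro k hk
    rw [mem_range] at hk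
    exact g1_I (p := p) ha hN (by omega)
  exact h1.mul h2

theorem B_main (ha : 1 ≤ a) (hN : 2 * R + 1 = p ^ a) :
    I p 4 (2 * (kap R ^ 2 * (((2 * R).choose R : ℚ) ^ 2 + Wb R)) - (2 - 8 * SS ((2 * R + 1 : ℕ) : ℚ) R -
      7 * HH ((2 * R + 1 : ℕ) : ℚ) R + 2 * KK ((2 * R + 1 : ℕ) : ℚ) R -
      2 * (LL ((2 * R + 1 : ℕ) : ℚ) R * SS ((2 * R + 1 : ℕ) : ℚ) R))) := by
  have h1 := Wb_I (p := p) ha hN
  have h2 := S2 (p := p) ha hN
  have h3 := K3 (p := p) ha hN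
  have h4 := L1 (p := p) ha hN
  have h5 := kap_I (p := p) ha hN
  obtain ⟨h6, h7⟩ := kD_I (p := p) ha hN
  have h8 : ((2 * R).choose R : ℚ) ^ 2 = DD R ^ 2 := ch_sq R R
  rw [h8]
  have m2 : (2 : ℚ) ∈ Zp p := by exact_mod_cast nat_mem 2
  have m21 := two_mem (p := p) ha hN
  have hW : I p 2 (Wb R) := by
    have e : Wb R = (Wb R + (1 / 2) * SS ((2 * R + 1 : ℕ) : ℚ) R - KK ((2 * R + 1 : ℕ) : ℚ) R) -
      2⁻¹ * SS ((2 * R + 1 : ℕ) : ℚ) R + KK ((2 * R + 1 : ℕ) : ℚ) R := by ring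
    rw [e]
    exact ((h1.mono (by norm_num)).sub (I.mem_mul m21 h2)).add (h3.mono (by norm_num))
  set L := LL ((2 * R + 1 : ℕ) : ℚ) R
  set S := SS ((2 * R + 1 : ℕ) : ℚ) R
  set K := KK ((2 * R + 1 : ℕ) : ℚ) R
  set H := HH ((2 * R + 1 : ℕ) : ℚ) R
  set k := kap R
  set D := DD R
  set w := Wb R
  have e : 2 * (k ^ 2 * (D ^ 2 + w)) - (2 - 8 * S - 7 * H + 2 * K - 2 * (L * S)) =
      2 * ((k * D - 1) * (k * D - 1)) + (4 * (k * D) - (4 - 7 * (S + H))) +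
      2 * (((k - (1 + L)) * w) * (k + 1 + L)) + 2 * (L * L * w) + (w + 1 / 2 * S - K) * (2 + 4 * L) +
      4 * (L * K) := by ring
  rw [e]
  have m4 : (4 : ℚ) ∈ Zp p := by exact_mod_cast nat_mem 4
  have mk : k ∈ Zp p := by
    have : k = (k - (1 + L)) + (1 + L) := by ring
    rw [this]
    exact (Zp p).add_mem h5.mem ((Zp p).add_mem (Zp p).one_mem h4.mem)
  have t1 : I p 4 ((k * D - 1) * (k * D - 1)) := h7.mul h7
  have t3 : I p 4 (((k - (1 + L)) * w) * (k + 1 + L)) :=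
    (h5.mul hW).mul_mem ((Zp p).add_mem ((Zp p).add_mem mk (Zp p).one_mem) h4.mem)
  have t4 : I p 4 (L * L * w) := (h4.mul h4).mul hW
  have t5 : I p 4 (L * K) := h4.mul h3
  exact (((((I.mem_mul m2 t1).add h6).add (I.mem_mul m2 t3)).add (I.mem_mul m2 t4)).add
    (h1.mul_mem ((Zp p).add_mem m2 ((Zp p).mul_mem m4 h4.mem)))).add (I.mem_mul m4 t5)

/-- the remaining combination, `p ≥ 5` -/
theorem rem5 (ha : 1 ≤ a) (hN : 2 * R + 1 = p ^ a) (h5 : 5 ≤ p) :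
    I p 4 (2 * XX ((2 * R + 1 : ℕ) : ℚ) R + 6 * YY ((2 * R + 1 : ℕ) : ℚ) R + 3 * HH ((2 * R + 1 : ℕ) : ℚ) R) := by
  have n3 : ¬ p ∣ 3 := fun h => absurd (Nat.le_of_dvd (by norm_num) h) (by omega)
  have n2 : ¬ p ∣ 2 := fun h => absurd (Nat.le_of_dvd (by norm_num) h) (by omega)
  have n6 : ¬ p ∣ 6 := by
    intro h
    rw [show 6 = 2*3 by norm_num, hp.out.dvd_mul] at h
    exact h.elim n2 n3
  have sh := SH (p := p) ha hN
  have h3 := H3 (p := p) ha hN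
  have l1 := L1 (p := p) ha hN
  have k1 := Kp1 (p := p) ha hN
  have k2 := Kp2 (p := p) ha hN
  have km := KM ((2*R+1:ℕ):ℚ) R
  have xyh := XYH ((2*R+1:ℕ):ℚ) R
  have kid := Kid ((2*R+1:ℕ):ℚ) R
  set N : ℚ := ((2*R+1:ℕ):ℚ) with hNd
  have m (n : ℕ) : ((n:ℕ):ℚ) ∈ Zp p := nat_mem n
  have s3 : I p 3 (SS N R) := by
    apply I.cancel n6
    have e : ((6:ℕ):ℚ) * SS N R = (6 * SS N R + 7 * HH N R) - 7 * HH N R := by push_cast; ring
    rw [e]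
    exact (sh.mono (by norm_num)).sub (I.mem_mul (by exact_mod_cast m 7) h3)
  have ls : I p 4 (LL N R * SS N R) := l1.mul s3
  set P := LL N R * SS N R with hP
  set K := KK N R
  set M := MM N R
  set X := XX N R
  set Y := YY N R
  set H := HH N R
  set S := SS N R
  set K' := Kp N R
  have x3y : I p 4 (X - 3 * Y) := by
    apply I.cancel n3
    have e : ((3:ℕ):ℚ) * (X - 3*Y) = 8 * ((K' - (1/8) * (K + X - Y - M)) - (K' - (P + X - Y))) - 9 * P := by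
      push_cast
      linear_combination (-1) * km + (2) * kid
    rw [e]
    exact (I.mem_mul (by exact_mod_cast m 8) (k2.sub k1)).sub (I.mem_mul (by exact_mod_cast m 9) ls)
  have h4y : I p 4 (H + 4 * Y) := by
    have e : H + 4 * Y = P - (X - 3*Y) := by linear_combination xyh
    rw [e]; exact ls.sub x3y
  have e : 2 * X + 6 * Y + 3 * H = 2 * (X - 3 * Y) + 3 * (H + 4 * Y) := by ring
  rw [e]
  exact (I.mem_mul (by exact_mod_cast m 2) x3y).add (I.mem_mul (by exact_mod_cast m 3) h4y)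

/-- the remaining combination, `p = 3` -/
theorem rem3 (ha : 1 ≤ a) (hN : 2 * R + 1 = p ^ a) (h3 : p = 3) :
    I p 4 (2 * XX ((2 * R + 1 : ℕ) : ℚ) R + 6 * YY ((2 * R + 1 : ℕ) : ℚ) R + 3 * HH ((2 * R + 1 : ℕ) : ℚ) R) := by
  have g1 : ∀ r ∈ Icc 1 R, I p 1 (g ((2 * R + 1 : ℕ) : ℚ) r) := by
    intro r hr
    rw [mem_Icc] at hr
    exact g_I (p := p) ha hN (by omega) (by omega)
  have g2 : ∀ r ∈ Icc 1 R, r ≠ 3 ^ (a - 1) → I p 2 (g ((2 * R + 1 : ℕ) : ℚ) r) := by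
    intro r hr hne
    rw [mem_Icc] at hr
    have hb : 3 ^ a = 3 * 3 ^ (a - 1) := by
      rw [← pow_succ']
      congr 1
      omega
    have ha2 : 2 ≤ a := by
      by_contra h
      have h1 : a = 1 := by omega
      rw [h1, h3] at hN
      rw [h1] at hne
      norm_num at hne hN
      omega
    have hnd : ¬ 3 ^ (a - 1) ∣ r := by
      rintro ⟨c, hc⟩
      have hpos : 0 < 3 ^ (a - 1) := by positivity
      have hc1 : c ≠ 0 := by
        rintro rfl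
        omega
      have hc2 : c ≠ 1 := by
        rintro rfl
        omega
      have h4 : 2 * 3 ^ (a - 1) ≤ r := by
        rw [hc, mul_comm]
        exact Nat.mul_le_mul_left _ (by omega)
      have h5 : 2 * R + 1 = 3 * 3 ^ (a - 1) := by rw [hN, h3, hb]
      omega
    have h6 := quot (p := p) (a := a) (s := a - 2) (m := r) (by omega) (by
      rw [show a - 2 + 1 = a - 1 by omega, h3]; exact hnd) (by omega)
    rw [show a - (a - 2) = 2 by omega] at h6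
    unfold g
    rw [hN]
    push_cast
    exact h6
  have hX : I p 4 (XX ((2 * R + 1 : ℕ) : ℚ) R) := by
    unfold XX
    apply I.sum
    intro r hr
    apply I.sum
    intro s hs
    split_ifs with h
    · by_cases h1 : r = 3 ^ (a - 1)
      · have h2 := (g2 s hs (by omega)).pow 2
        exact ((g1 r hr).mul h2).mono (by norm_num)
      · have h2 := (g1 s hs).pow 2
        exact (g2 r hr h1).mul h2
    · exact I.zero 4
  have hY : I p 3 (YY ((2 * R + 1 : ℕ) : ℚ) R) := by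
    unfold YY
    apply I.sum
    intro r hr
    apply I.sum
    intro s hs
    split_ifs with h
    · exact (g1 r hr).mul ((g1 s hs).pow 2)
    · exact I.zero 3
  have hH := H3 (p := p) ha hN
  have hp3 : I p 1 (3 : ℚ) := by
    have := I.p_pow (p := p) 1
    have e3 : (3 : ℚ) = (p : ℚ) ^ 1 := by rw [h3]; norm_num
    rw [e3]
    exact this
  have m2 : (2 : ℚ) ∈ Zp p := by exact_mod_cast nat_mem 2
  have e : 2 * XX ((2 * R + 1 : ℕ) : ℚ) R + 6 * YY ((2 * R + 1 : ℕ) : ℚ) R + 3 * HH ((2 * R + 1 : ℕ) : ℚ) R =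
      2 * XX ((2 * R + 1 : ℕ) : ℚ) R + 2 * (3 * YY ((2 * R + 1 : ℕ) : ℚ) R) + 3 * HH ((2 * R + 1 : ℕ) : ℚ) R := by ring
  rw [e]
  exact ((I.mem_mul m2 hX).add (I.mem_mul m2 (hp3.mul hY))).add (hp3.mul hH)

theorem diff_I (ha : 1 ≤ a) (hN : 2 * R + 1 = p ^ a) :
    I p (a + 4) (∑ k ∈ range (R + 1), (4 * (k : ℚ) + 1) * u k ^ 4 -
      ∑ k ∈ range (2 * R + 1), (3 * (k : ℚ) + 1) * u k ^ 3 * 4 ^ k) := by
  have n2 : ¬ p ∣ 2 := by
    intro h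
    have h2 : p = 2 := (Nat.prime_dvd_prime_iff_eq hp.out Nat.prime_two).mp h
    have : p ∣ 2 * R + 1 := by rw [hN]; exact dvd_pow_self p (by omega)
    rw [h2] at this
    omega
  have hrem : I p 4 (2 * XX ((2 * R + 1 : ℕ) : ℚ) R + 6 * YY ((2 * R + 1 : ℕ) : ℚ) R + 3 * HH ((2 * R + 1 : ℕ) : ℚ) R) := by
    by_cases h3 : p = 3
    · exact rem3 ha hN h3
    · have h2 : p ≠ 2 := fun h => n2 (by rw [h])
      have h4 : p ≠ 4 := by
        rintro rfl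
        exact absurd hp.out (by decide)
      have := hp.out.two_le
      exact rem5 ha hN (by omega)
  have hA := A_main (p := p) ha hN
  have hB := B_main (p := p) ha hN
  have sh := SH (p := p) ha hN
  have xyh := XYH ((2*R+1:ℕ):ℚ) R
  have kid := Kid ((2*R+1:ℕ):ℚ) R
  have m4 := four_mem (p := p) ha hN
  have m5 : (5 : ℚ) ∈ Zp p := by exact_mod_cast nat_mem 5
  rw [A_gA, B_kap]
  have hd : I p 4 (u R ^ 2 * gA R - kap R ^ 2 * (((2 * R).choose R : ℚ) ^ 2 + Wb R)) := by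
    apply I.cancel n2
    set A' := u R ^ 2 * gA R
    set B' := kap R ^ 2 * (((2 * R).choose R : ℚ) ^ 2 + Wb R)
    have e : ((2 : ℕ) : ℚ) * (A' - B') = (2 * A' - (2 - (1 / 2) * SS ((2 * R + 1 : ℕ) : ℚ) R +
      (1 / 2) * (LL ((2 * R + 1 : ℕ) : ℚ) R * SS ((2 * R + 1 : ℕ) : ℚ) R) + KK ((2 * R + 1 : ℕ) : ℚ) R)) -
      (2 * B' - (2 - 8 * SS ((2 * R + 1 : ℕ) : ℚ) R -
      7 * HH ((2 * R + 1 : ℕ) : ℚ) R + 2 * KK ((2 * R + 1 : ℕ) : ℚ) R -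
      2 * (LL ((2 * R + 1 : ℕ) : ℚ) R * SS ((2 * R + 1 : ℕ) : ℚ) R))) +
      4⁻¹ * (5 * (6 * SS ((2 * R + 1 : ℕ) : ℚ) R + 7 * HH ((2 * R + 1 : ℕ) : ℚ) R)) +
      4⁻¹ * (2 * XX ((2 * R + 1 : ℕ) : ℚ) R + 6 * YY ((2 * R + 1 : ℕ) : ℚ) R + 3 * HH ((2 * R + 1 : ℕ) : ℚ) R) := by
      rw [Nat.cast_ofNat]
      linear_combination (-5 / 2) * xyh - kid
    rw [e]
    exact ((hA.sub hB).add (I.mem_mul m4 (I.mem_mul m5 sh))).add (I.mem_mul m4 hrem)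
  rw [← mul_sub, hN]
  have h1 := I.p_pow (p := p) a
  push_cast
  exact h1.mul hd

end Pool.Agent.L7h22.C42
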