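import Pool.Agent.L7h22.C42.Comb

/-!
# The exact value of a weighted sum of the numbers `c(R,j)`
-/

set_option autoImplicit false

namespace Pool.Agent.L7h22.C42

open Finset

/-- `e_i = N^2/(N^2-(2i+1)^2)`, `N = 2R+1` -/
def ee (R i : ℕ) : ℚ := (2 * (R : ℚ) + 1) ^ 2 / ((2 * (R : ℚ) + 1) ^ 2 - (2 * i + 1) ^ 2)

/-- the sum `∑_j (N/j) c(R,j) ∑_{i<j} e_i` -/
def GG (R : ℕ) : ℚ := ∑ j ∈ range R, (2 * (R : ℚ) + 1) / (j + 1) * c R (j + 1) * ∑ i ∈ range (j + 1), ee R i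

theorem inner (R j : ℕ) (hj : j < R) : c R (j + 1) * ∑ i ∈ Ico (j + 1) R, ee R i =
    -((-1) ^ R * ∑ n ∈ range R, W R n * ee R n * c n (j + 1)) := by
  have h := W_der R (R - (j + 1)) (by omega)
  rw [show R - (R - (j + 1)) = j + 1 by omega] at h
  have e1 : ∑ i ∈ Ico (j + 1) R, ee R i = (2 * (R : ℚ) + 1) ^ 2 *
      ∑ i ∈ Ico (j + 1) R, 1 / ((2 * (R : ℚ) + 1) ^ 2 - (2 * i + 1) ^ 2) := by
    rw [mul_sum]
    refine sum_congr rfl fun i _ => ?_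
    unfold ee
    ring
  have e2 : ∑ n ∈ range R, W R n * ee R n * c n (j + 1) = (2 * (R : ℚ) + 1) ^ 2 *
      ∑ n ∈ range R, W R n / ((2 * (R : ℚ) + 1) ^ 2 - (2 * n + 1) ^ 2) * c n (j + 1) := by
    rw [mul_sum]
    refine sum_congr rfl fun i _ => ?_
    unfold ee
    ring
  rw [e1, e2, h]
  have h1 : ((-1 : ℚ) ^ R) * (-1) ^ R = 1 := by
    rw [← mul_pow]; norm_num
  linear_combination (-(2 * (R : ℚ) + 1) ^ 2 * c R (j + 1) *
    ∑ i ∈ Ico (j + 1) R, 1 / ((2 * (R : ℚ) + 1) ^ 2 - (2 * i + 1) ^ 2)) * h1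

theorem GG_eq (R : ℕ) : GG R = -2 * (∑ i ∈ range R, (2 * (R : ℚ) + 1) / (i + 1)) * ∑ i ∈ range R, ee R i -
    2 * (-1) ^ R * ∑ n ∈ range R, W R n * ee R n * ∑ i ∈ range n, (2 * (R : ℚ) + 1) / (i + 1) := by
  have h1 : GG R = (∑ j ∈ range R, (2 * (R : ℚ) + 1) / (j + 1) * c R (j + 1)) * (∑ i ∈ range R, ee R i) +
      (-1) ^ R * ∑ j ∈ range R, (2 * (R : ℚ) + 1) / (j + 1) * ∑ n ∈ range R, W R n * ee R n * c n (j + 1) := by
    unfold GG
    rw [sum_mul, mul_sum, ← sum_add_distrib]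
    refine sum_congr rfl fun j hj => ?_
    rw [mem_range] at hj
    have h2 := inner R j hj
    have h3 : ∑ i ∈ range R, ee R i = ∑ i ∈ range (j + 1), ee R i + ∑ i ∈ Ico (j + 1) R, ee R i :=
      (sum_range_add_sum_Ico _ (by omega)).symm
    rw [h3]
    linear_combination (-(2 * (R : ℚ) + 1) / (j + 1)) * h2
  have h4 : ∀ n, n ≤ R → ∑ j ∈ range R, (2 * (R : ℚ) + 1) / (j + 1) * c n (j + 1) =
      -2 * ∑ i ∈ range n, (2 * (R : ℚ) + 1) / (i + 1) := by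
    intro n hn
    have h5 := c_harm n
    have h6 : ∑ j ∈ range R, (2 * (R : ℚ) + 1) / (j + 1) * c n (j + 1) =
        ∑ j ∈ range n, (2 * (R : ℚ) + 1) / (j + 1) * c n (j + 1) := by
      symm
      apply sum_subset (range_subset_range.2 hn)
      intro k _ hk
      rw [mem_range] at hk
      rw [c_big (by omega), mul_zero]
    have h7 : ∑ j ∈ range n, (2 * (R : ℚ) + 1) / (j + 1) * c n (j + 1) =
        (2 * (R : ℚ) + 1) * ∑ j ∈ range n, c n (j + 1) / (j + 1) := by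
      rw [mul_sum]
      refine sum_congr rfl fun j _ => ?_
      ring
    have h8 : ∑ i ∈ range n, (2 * (R : ℚ) + 1) / (i + 1) = (2 * (R : ℚ) + 1) * ∑ i ∈ range n, 1 / ((i : ℚ) + 1) := by
      rw [mul_sum]
      refine sum_congr rfl fun j _ => ?_
      ring
    rw [h6, h7, h5, h8]
    ring
  rw [h1, h4 R le_rfl]
  have h9 : ∑ j ∈ range R, (2 * (R : ℚ) + 1) / (j + 1) * ∑ n ∈ range R, W R n * ee R n * c n (j + 1) =
      ∑ n ∈ range R, W R n * ee R n * (-2 * ∑ i ∈ range n, (2 * (R : ℚ) + 1) / (i + 1)) := by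
    simp_rw [mul_sum]
    rw [sum_comm]
    refine sum_congr rfl fun n hn => ?_
    rw [mem_range] at hn
    have h10 := h4 n hn.le
    rw [mul_sum] at h10
    rw [← mul_sum, ← h10, mul_sum]
    refine sum_congr rfl fun j _ => ?_
    ring
  rw [h9]
  have h11 : ∑ n ∈ range R, W R n * ee R n * (-2 * ∑ i ∈ range n, (2 * (R : ℚ) + 1) / (i + 1)) =
      -2 * ∑ n ∈ range R, W R n * ee R n * ∑ i ∈ range n, (2 * (R : ℚ) + 1) / (i + 1) := by
    rw [mul_sum]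
    refine sum_congr rfl fun j _ => ?_
    ring
  rw [h11]
  ring

end Pool.Agent.L7h22.C42
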