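import Pool.Agent.L7h22.C42.Exact
import Pool.Agent.L7h22.C42.GSum
import Pool.Agent.Helper857.W7

/-!
# The first sum modulo `p^{r+4}`
-/

set_option autoImplicit false

namespace Pool.Agent.L7h22.C42

open Finset Pool.Agent.Helper857.Pad Pool.Agent.Helper857.W

variable {p : ℕ} [hp : Fact p.Prime] {a R : ℕ}

/-- `∏_{i<j} (1 - y_i^2)` -/
noncomputable def PP (N : ℚ) (j : ℕ) : ℚ := ∏ i ∈ range j, (1 - yy N i ^ 2)

theorem c_eq (R j : ℕ) : c R j = u j ^ 2 * PP ((2 * R + 1 : ℕ) : ℚ) j := by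
  induction j with
  | zero => simp [c_zero, u_zero, PP]
  | succ j ih =>
    have h1 := c_j R j
    have h2 := u_succ j
    have h3 : ((2 * (j : ℚ) + 2) ^ 2) ≠ 0 := by positivity
    apply mul_right_cancel₀ h3
    rw [h1, ih]
    have h4 : PP ((2 * R + 1 : ℕ) : ℚ) (j + 1) = PP ((2 * R + 1 : ℕ) : ℚ) j * (1 - yy ((2 * R + 1 : ℕ) : ℚ) j ^ 2) := by
      unfold PP; rw [prod_range_succ]
    have h5 : (2 * (j : ℚ) + 1) ^ 2 * (1 - yy ((2 * R + 1 : ℕ) : ℚ) j ^ 2) = (2 * j + 1) ^ 2 - (2 * R + 1) ^ 2 := by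
      unfold yy
      have : (2 * (j : ℚ) + 1) ≠ 0 := by positivity
      push_cast
      field_simp
    rw [h4]
    have h6 : u (j + 1) ^ 2 * (2 * (j : ℚ) + 2) ^ 2 = u j ^ 2 * (2 * j + 1) ^ 2 := by
      rw [← mul_pow, ← mul_pow, h2]
    linear_combination (-PP ((2 * R + 1 : ℕ) : ℚ) j * u j ^ 2) * h5 -
      PP ((2 * R + 1 : ℕ) : ℚ) j * (1 - yy ((2 * R + 1 : ℕ) : ℚ) j ^ 2) * h6

theorem two_mem (ha : 1 ≤ a) (hN : 2 * R + 1 = p ^ a) : (2 : ℚ)⁻¹ ∈ Zp p := half_mem (p := p) ha hN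

theorem u_mem (ha : 1 ≤ a) (hN : 2 * R + 1 = p ^ a) (j : ℕ) : u j ∈ Zp p := by
  have h := two_mem ha hN
  have e : u j = ((2 * j).choose j : ℚ) * ((2 : ℚ)⁻¹ ^ 2) ^ j := by
    unfold u
    rw [div_eq_mul_inv, ← inv_pow]
    norm_num
  rw [e]
  exact (Zp p).mul_mem (by exact_mod_cast nat_mem ((2 * j).choose j)) ((Zp p).pow_mem ((Zp p).pow_mem h 2) j)

theorem QQ_I (ha : 1 ≤ a) (hN : 2 * R + 1 = p ^ a) {j : ℕ} (hj : j ≤ R) :
    I p 2 (QQ ((2 * R + 1 : ℕ) : ℚ) j) := by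
  unfold QQ
  apply I.sum
  intro i hi
  rw [mem_range] at hi
  simpa using (yy_I (p := p) ha hN (i := i) (by omega)).pow 2

theorem PP_I (ha : 1 ≤ a) (hN : 2 * R + 1 = p ^ a) {j : ℕ} (hj : j ≤ R) :
    I p 4 (PP ((2 * R + 1 : ℕ) : ℚ) j - (1 - QQ ((2 * R + 1 : ℕ) : ℚ) j)) := by
  unfold PP QQ
  apply prod_one_sub (p := p) (m := 2)
  intro i hi
  simpa using (yy_I (p := p) ha hN (i := i) (by omega)).pow 2

/-- `∑_j u_j^2 N/(N-2j)` -/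
def gA (R : ℕ) : ℚ := ∑ j ∈ range (R + 1), u j ^ 2 * (((2 * R + 1 : ℕ) : ℚ) / (((2 * R + 1 : ℕ) : ℚ) - 2 * j))

theorem A_gA (R : ℕ) : ∑ k ∈ range (R + 1), (4 * (k : ℚ) + 1) * u k ^ 4 =
    ((2 * R + 1 : ℕ) : ℚ) * (u R ^ 2 * gA R) := by
  rw [A_exact]
  unfold av gA
  rw [mul_sum, mul_sum, mul_sum]
  refine sum_congr rfl fun j _ => ?_
  push_cast
  ring

/-- the product `∏ (2(i+1)+N)/(2(i+1)-N)` -/
def EE (R : ℕ) : ℚ := ∏ i ∈ range R, ((2 * ((i : ℚ) + 1) + ((2 * R + 1 : ℕ) : ℚ)) / (2 * (i + 1) - ((2 * R + 1 : ℕ) : ℚ)))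

theorem N_ne (R j : ℕ) : ((2 * R + 1 : ℕ) : ℚ) ≠ 2 * j := by
  intro h
  have : 2 * R + 1 = 2 * j := by exact_mod_cast h
  omega

theorem E_sum (R : ℕ) : ∑ j ∈ range (R + 1), c R j * (((2 * R + 1 : ℕ) : ℚ) / (((2 * R + 1 : ℕ) : ℚ) - 2 * j)) = EE R :=
  pf R _ (N_ne R)

theorem term_A (ha : 1 ≤ a) (hN : 2 * R + 1 = p ^ a) {j : ℕ} (hj : j < R) :
    I p 4 (2 * ((u (j + 1) ^ 2 - c R (j + 1)) * (((2 * R + 1 : ℕ) : ℚ) / (((2 * R + 1 : ℕ) : ℚ) - 2 * ((j + 1 : ℕ) : ℚ)))) -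
      ((2 * (R : ℚ) + 1) / (j + 1) * c R (j + 1) * ∑ i ∈ range (j + 1), ee R i)) ∧
    I p 3 ((u (j + 1) ^ 2 - c R (j + 1)) * (((2 * R + 1 : ℕ) : ℚ) / (((2 * R + 1 : ℕ) : ℚ) - 2 * ((j + 1 : ℕ) : ℚ)))) := by
  have hx := ev_I (p := p) ha hN hj
  have hQ := QQ_I (p := p) ha hN (j := j + 1) (by omega)
  have hP := PP_I (p := p) ha hN (j := j + 1) (by omega)
  have hu := u_mem (p := p) ha hN (j + 1)
  have hee : I p 4 (∑ i ∈ range (j + 1), ee R i + QQ ((2 * R + 1 : ℕ) : ℚ) (j + 1)) := by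
    unfold QQ
    rw [← sum_add_distrib]
    apply I.sum
    intro i hi
    rw [mem_range] at hi
    have hy := yy_I (p := p) ha hN (i := i) (by omega)
    obtain ⟨n0, m0, i0⟩ := unit (p := p) (x := 1 - yy ((2 * R + 1 : ℕ) : ℚ) i ^ 2) (by
      have : 1 - yy ((2 * R + 1 : ℕ) : ℚ) i ^ 2 - 1 = -(yy ((2 * R + 1 : ℕ) : ℚ) i ^ 2) := by ring
      rw [this]
      exact ((hy.pow 2).mono (by norm_num)).neg)
    have e1 : ee R i = - (yy ((2 * R + 1 : ℕ) : ℚ) i ^ 2 * (1 - yy ((2 * R + 1 : ℕ) : ℚ) i ^ 2)⁻¹) := by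
      unfold ee
      have h1 := sq_ne (show i < R by omega)
      have h2 : (2 * (i : ℚ) + 1) ≠ 0 := by positivity
      rw [← div_eq_mul_inv, ← neg_div, div_eq_div_iff h1 n0]
      unfold yy
      push_cast
      field_simp
      ring
    rw [e1]
    have e2 : -(yy ((2 * R + 1 : ℕ) : ℚ) i ^ 2 * (1 - yy ((2 * R + 1 : ℕ) : ℚ) i ^ 2)⁻¹) + yy ((2 * R + 1 : ℕ) : ℚ) i ^ 2 =
        -(yy ((2 * R + 1 : ℕ) : ℚ) i ^ 4 * (1 - yy ((2 * R + 1 : ℕ) : ℚ) i ^ 2)⁻¹) := by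
      have hinv : (1 - yy ((2 * R + 1 : ℕ) : ℚ) i ^ 2) * (1 - yy ((2 * R + 1 : ℕ) : ℚ) i ^ 2)⁻¹ = 1 := mul_inv_cancel₀ n0
      linear_combination (-yy ((2 * R + 1 : ℕ) : ℚ) i ^ 2) * hinv
    rw [e2]
    have h4 : I p 4 (yy ((2 * R + 1 : ℕ) : ℚ) i ^ 4) := by simpa using hy.pow 4
    exact (h4.mul_mem m0).neg
  set N : ℚ := ((2 * R + 1 : ℕ) : ℚ) with hNd
  set x : ℚ := N / (2 * ((j : ℚ) + 1)) with hxd
  obtain ⟨n0, m0, i0⟩ := unit (p := p) (x := 1 - x) (by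
    have : 1 - x - 1 = -x := by ring
    rw [this]; exact hx.neg)
  have hinv : (1 - x) * (1 - x)⁻¹ = 1 := mul_inv_cancel₀ n0
  have e1 : N / (N - 2 * ((j + 1 : ℕ) : ℚ)) = -x * (1 - x)⁻¹ := by
    have h1 : N - 2 * ((j + 1 : ℕ) : ℚ) ≠ 0 := sub_ne_zero.2 (by rw [hNd]; exact N_ne R (j + 1))
    rw [← div_eq_mul_inv, div_eq_div_iff h1 n0, hxd]
    have h2 : (2 * ((j : ℚ) + 1)) ≠ 0 := by positivity
    push_cast
    field_simp
    ring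
  have e2 : (2 * (R : ℚ) + 1) / (j + 1) = 2 * x := by
    rw [hxd, hNd]
    push_cast
    field_simp
  rw [e1, e2, c_eq, ← hNd]
  set Q := QQ N (j + 1)
  set P := PP N (j + 1)
  set U := u (j + 1)
  set e := ∑ i ∈ range (j + 1), ee R i
  have h1P : I p 2 (1 - P) := by
    have : 1 - P = Q - (P - (1 - Q)) := by ring
    rw [this]
    exact hQ.sub (hP.mono (by norm_num))
  have mU : U ^ 2 ∈ Zp p := (Zp p).pow_mem hu 2
  have mP : P ∈ Zp p := by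
    have : P = 1 - (1 - P) := by ring
    rw [this]
    exact (Zp p).sub_mem (Zp p).one_mem h1P.mem
  have m2 : (2 : ℚ) ∈ Zp p := by exact_mod_cast nat_mem 2
  constructor
  · have e3 : 2 * ((U ^ 2 - U ^ 2 * P) * (-x * (1 - x)⁻¹)) - 2 * x * (U ^ 2 * P) * e =
        (x * ((1 - P) * ((1 - x)⁻¹ - 1))) * (-(2 * U ^ 2)) + (x * ((P - (1 - Q)))) * (2 * U ^ 2) -
        (x * (e + Q)) * (2 * U ^ 2 * P) - (x * (Q * (1 - P))) * (2 * U ^ 2) := by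
      ring
    rw [e3]
    have t1 : I p 4 (x * ((1 - P) * ((1 - x)⁻¹ - 1))) := hx.mul (h1P.mul i0)
    have t2 : I p 4 (x * (P - (1 - Q))) := (hx.mul hP).mono (by norm_num)
    have t3 : I p 4 (x * (e + Q)) := (hx.mul hee).mono (by norm_num)
    have t4 : I p 4 (x * (Q * (1 - P))) := (hx.mul (hQ.mul h1P)).mono (by norm_num)
    have m3 := (Zp p).mul_mem m2 mU
    exact (((t1.mul_mem ((Zp p).neg_mem m3)).add (t2.mul_mem m3)).sub (t3.mul_mem ((Zp p).mul_mem m3 mP))).sub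
      (t4.mul_mem m3)
  · have e3 : (U ^ 2 - U ^ 2 * P) * (-x * (1 - x)⁻¹) = (x * (1 - P)) * (-(U ^ 2 * (1 - x)⁻¹)) := by ring
    rw [e3]
    exact (hx.mul h1P).mul_mem ((Zp p).neg_mem ((Zp p).mul_mem mU m0))

theorem gA_E (ha : 1 ≤ a) (hN : 2 * R + 1 = p ^ a) :
    I p 4 (2 * (gA R - EE R) - GG R) ∧ I p 3 (gA R - EE R) := by
  have e0 : gA R - EE R = ∑ j ∈ range R, (u (j + 1) ^ 2 - c R (j + 1)) *
      (((2 * R + 1 : ℕ) : ℚ) / (((2 * R + 1 : ℕ) : ℚ) - 2 * ((j + 1 : ℕ) : ℚ))) := by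
    rw [← E_sum]
    unfold gA
    rw [← sum_sub_distrib, sum_range_succ']
    rw [u_zero, c_zero]
    rw [add_eq_left.2 (by ring)]
    refine sum_congr rfl fun j _ => ?_
    ring
  rw [e0]
  constructor
  · unfold GG
    rw [mul_sum, ← sum_sub_distrib]
    apply I.sum
    intro j hj
    rw [mem_range] at hj
    exact (term_A ha hN hj).1
  · apply I.sum
    intro j hj
    rw [mem_range] at hj
    exact (term_A ha hN hj).2

theorem u_prod (R : ℕ) : u R = (-1) ^ R * ∏ i ∈ range R, (1 - ((2 * R + 1 : ℕ) : ℚ) / (2 * ((i : ℚ) + 1))) := by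
  have h1 : ∀ n : ℕ, u n = ∏ i ∈ range n, ((2 * (i : ℚ) + 1) / (2 * (i + 1))) := by
    intro n
    induction n with
    | zero => simp [u_zero]
    | succ n ih =>
      rw [prod_range_succ, ← ih]
      have h2 := u_succ n
      have h3 : (2 * ((n : ℚ) + 1)) ≠ 0 := by positivity
      rw [mul_div_assoc', eq_div_iff h3]
      linear_combination h2
  rw [h1, prod_div_distrib]
  have h2 : ∏ i ∈ range R, (2 * (i : ℚ) + 1) = ∏ i ∈ range R, (((2 * R + 1 : ℕ) : ℚ) - 2 * ((i : ℚ) + 1)) := by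
    apply refl_prod
    intro i k hik
    subst hik
    push_cast
    ring
  rw [h2, ← prod_div_distrib]
  have h3 : (-1 : ℚ) ^ R = ∏ i ∈ range R, (-1 : ℚ) := by simp
  rw [h3, ← prod_mul_distrib]
  refine prod_congr rfl fun i _ => ?_
  have h4 : (2 * ((i : ℚ) + 1)) ≠ 0 := by positivity
  field_simp
  ring

theorem uE (ha : 1 ≤ a) (hN : 2 * R + 1 = p ^ a) :
    I p 4 (u R ^ 2 * EE R - (1 - (1 / 4) * SS ((2 * R + 1 : ℕ) : ℚ) R)) := by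
  have h1 : u R ^ 2 * EE R = ∏ i ∈ range R, (1 - (((2 * R + 1 : ℕ) : ℚ) / (2 * ((i : ℚ) + 1))) ^ 2) := by
    rw [u_prod]
    unfold EE
    rw [mul_pow, ← pow_mul, mul_comm R 2, pow_mul, neg_one_sq, one_pow, one_mul, ← prod_pow, ← prod_mul_distrib]
    refine prod_congr rfl fun i _ => ?_
    have h4 : (2 * ((i : ℚ) + 1)) ≠ 0 := by positivity
    have h5 : (2 * ((i : ℚ) + 1) - ((2 * R + 1 : ℕ) : ℚ)) ≠ 0 := by
      have := N_ne R (i + 1)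
      intro h
      apply this
      push_cast at h ⊢
      linarith
    field_simp
    ring
  rw [h1, ← SS_eq]
  apply prod_one_sub (p := p) (m := 2)
  intro i hi
  simpa using (ev_I (p := p) ha hN hi).pow 2

theorem uR_I (ha : 1 ≤ a) (hN : 2 * R + 1 = p ^ a) : I p 1 (u R ^ 2 - 1) := by
  have h1 : I p 1 (∏ i ∈ range R, (1 - ((2 * R + 1 : ℕ) : ℚ) / (2 * ((i : ℚ) + 1))) - 1) := by
    apply prod_one
    intro i hi
    have : 1 - ((2 * R + 1 : ℕ) : ℚ) / (2 * ((i : ℚ) + 1)) - 1 = -(((2 * R + 1 : ℕ) : ℚ) / (2 * ((i : ℚ) + 1))) := by ring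
    rw [this]
    exact (ev_I (p := p) ha hN hi).neg
  rw [u_prod]
  rw [mul_pow, ← pow_mul, mul_comm R 2, pow_mul, neg_one_sq, one_pow, one_mul]
  set P := ∏ i ∈ range R, (1 - ((2 * R + 1 : ℕ) : ℚ) / (2 * ((i : ℚ) + 1)))
  have e : P ^ 2 - 1 = (P - 1) * ((P - 1) + 2) := by ring
  rw [e]
  exact h1.mul_mem ((Zp p).add_mem h1.mem (by exact_mod_cast nat_mem 2))

theorem LL_range (R : ℕ) : ∑ i ∈ range R, (2 * (R : ℚ) + 1) / (i + 1) = LL ((2 * R + 1 : ℕ) : ℚ) R := by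
  unfold LL
  rw [sum_shift]
  refine sum_congr rfl fun i _ => ?_
  unfold g
  push_cast
  ring

end Pool.Agent.L7h22.C42
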