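import Pool.Agent.L7h22.C42.PartA

/-!
# The first sum modulo `p^{r+4}`, continued
-/

set_option autoImplicit false

namespace Pool.Agent.L7h22.C42

open Finset Pool.Agent.Helper857.Pad Pool.Agent.Helper857.W

variable {p : ℕ} [hp : Fact p.Prime] {a R : ℕ}

theorem ch_prod (R j : ℕ) : ((2 * R).choose j : ℚ) = (-1) ^ j * ∏ i ∈ range j, (1 - ((2 * R + 1 : ℕ) : ℚ) / ((i : ℚ) + 1)) := by
  induction j with
  | zero => simp
  | succ j ih =>
    rw [prod_range_succ, pow_succ]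
    have h0 : ((j : ℚ) + 1) ≠ 0 := by positivity
    have h1 : ((2 * R).choose (j + 1) : ℚ) * (j + 1) = ((2 * R).choose j : ℚ) * (2 * R - j) := by
      rcases Nat.lt_or_ge (2 * R) j with h | h
      · rw [Nat.choose_eq_zero_of_lt (by omega), Nat.choose_eq_zero_of_lt (by omega)]
        simp
      · have h3 := Nat.choose_succ_right_eq (2 * R) j
        have := congrArg (Nat.cast : ℕ → ℚ) h3
        push_cast at this
        rw [Nat.cast_sub h] at this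
        push_cast at this
        exact this
    apply mul_right_cancel₀ h0
    rw [h1, ih]
    push_cast
    field_simp
    ring

theorem ch_sq (R j : ℕ) : ((2 * R).choose j : ℚ) ^ 2 = (∏ i ∈ range j, (1 - ((2 * R + 1 : ℕ) : ℚ) / ((i : ℚ) + 1))) ^ 2 := by
  rw [ch_prod, mul_pow, ← pow_mul, mul_comm j 2, pow_mul, neg_one_sq, one_pow, one_mul]

theorem g1_I (ha : 1 ≤ a) (hN : 2 * R + 1 = p ^ a) {i : ℕ} (hi : i < 2 * R) :
    I p 1 (((2 * R + 1 : ℕ) : ℚ) / ((i : ℚ) + 1)) := by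
  have := g_I (p := p) ha hN (m := i + 1) (by omega) (by omega)
  unfold g at this
  push_cast at this ⊢
  exact this

theorem pr_I (ha : 1 ≤ a) (hN : 2 * R + 1 = p ^ a) {j : ℕ} (hj : j ≤ 2 * R) :
    I p 1 (∏ i ∈ range j, (1 - ((2 * R + 1 : ℕ) : ℚ) / ((i : ℚ) + 1)) - 1) := by
  apply prod_one
  intro i hi
  have : 1 - ((2 * R + 1 : ℕ) : ℚ) / ((i : ℚ) + 1) - 1 = -(((2 * R + 1 : ℕ) : ℚ) / ((i : ℚ) + 1)) := by ring
  rw [this]
  exact (g1_I ha hN (by omega)).neg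

theorem W_I (ha : 1 ≤ a) (hN : 2 * R + 1 = p ^ a) {n : ℕ} (hn : n < R) : I p 1 ((-1) ^ R * W R n - 2) := by
  have hy := yy_I (p := p) ha hN (i := n) (by omega)
  have hP := pr_I (p := p) ha hN (j := R - n) (by omega)
  have hch := ch_prod R (R - n)
  have hsym : (2 * R).choose (R + n) = (2 * R).choose (R - n) := by
    rw [← Nat.choose_symm (show R - n ≤ 2 * R by omega)]
    congr 1
    omega
  obtain ⟨n0, m0, i0⟩ := unit (p := p) (x := 1 + yy ((2 * R + 1 : ℕ) : ℚ) n) (by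
    have : 1 + yy ((2 * R + 1 : ℕ) : ℚ) n - 1 = yy ((2 * R + 1 : ℕ) : ℚ) n := by ring
    rw [this]; exact hy)
  have e1 : (-1) ^ R * W R n = 2 * (1 + yy ((2 * R + 1 : ℕ) : ℚ) n)⁻¹ *
      ∏ i ∈ range (R - n), (1 - ((2 * R + 1 : ℕ) : ℚ) / ((i : ℚ) + 1)) := by
    unfold W
    rw [hsym, hch]
    obtain ⟨d, hd⟩ : ∃ d, R = n + d := ⟨R - n, by omega⟩
    have h2 : R - n = d := by omega
    rw [h2]
    have h3 : ((-1 : ℚ) ^ R * (-1) ^ n * (-1) ^ d) = 1 := by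
      rw [hd, pow_add]
      have : ((-1 : ℚ) ^ n * (-1) ^ n) = 1 := by rw [← mul_pow]; norm_num
      have : ((-1 : ℚ) ^ d * (-1) ^ d) = 1 := by rw [← mul_pow]; norm_num
      calc _ = ((-1 : ℚ) ^ n * (-1) ^ n) * ((-1 : ℚ) ^ d * (-1) ^ d) := by ring
        _ = 1 := by rw [‹((-1 : ℚ) ^ n * (-1) ^ n) = 1›, this]; ring
    have h4 : ((R : ℚ) + n + 1) ≠ 0 := by positivity
    have h5 : (2 * (n : ℚ) + 1) / (R + n + 1) = 2 * (1 + yy ((2 * R + 1 : ℕ) : ℚ) n)⁻¹ := by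
      rw [← div_eq_mul_inv, div_eq_div_iff h4 n0]
      unfold yy
      have h6 : (2 * (n : ℚ) + 1) ≠ 0 := by positivity
      push_cast
      field_simp
      ring
    set P := ∏ i ∈ range d, (1 - ((2 * R + 1 : ℕ) : ℚ) / ((i : ℚ) + 1))
    calc (-1 : ℚ) ^ R * ((-1) ^ n * (2 * n + 1) * ((-1) ^ d * P) / (R + n + 1)) =
        ((-1 : ℚ) ^ R * (-1) ^ n * (-1) ^ d) * ((2 * (n : ℚ) + 1) / (R + n + 1)) * P := by ring
      _ = _ := by rw [h3, h5]; ring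
  rw [e1]
  set P := ∏ i ∈ range (R - n), (1 - ((2 * R + 1 : ℕ) : ℚ) / ((i : ℚ) + 1))
  set v := (1 + yy ((2 * R + 1 : ℕ) : ℚ) n)⁻¹
  have e2 : 2 * v * P - 2 = (P - 1) * (2 * v) + (v - 1) * 2 := by ring
  have m2 : (2 : ℚ) ∈ Zp p := by exact_mod_cast nat_mem 2
  rw [e2]
  exact (hP.mul_mem ((Zp p).mul_mem m2 m0)).add (i0.mul_mem m2)

theorem ee_yy (ha : 1 ≤ a) (hN : 2 * R + 1 = p ^ a) {i : ℕ} (hi : i < R) :
    I p 4 (ee R i + yy ((2 * R + 1 : ℕ) : ℚ) i ^ 2) := by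
  have hy := yy_I (p := p) ha hN (i := i) (by omega)
  obtain ⟨n0, m0, i0⟩ := unit (p := p) (x := 1 - yy ((2 * R + 1 : ℕ) : ℚ) i ^ 2) (by
    have : 1 - yy ((2 * R + 1 : ℕ) : ℚ) i ^ 2 - 1 = -(yy ((2 * R + 1 : ℕ) : ℚ) i ^ 2) := by ring
    rw [this]
    exact ((hy.pow 2).mono (by norm_num)).neg)
  have e1 : ee R i = - (yy ((2 * R + 1 : ℕ) : ℚ) i ^ 2 * (1 - yy ((2 * R + 1 : ℕ) : ℚ) i ^ 2)⁻¹) := by
    unfold ee
    have h1 := sq_ne (show i < R by omega)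
    have h2 : (2 * (i : ℚ) + 1) ≠ 0 := by positivity
    rw [← div_eq_mul_inv, ← neg_div, div_eq_div_iff h1 n0]
    unfold yy
    push_cast
    field_simp
    ring
  rw [e1]
  have e2 : -(yy ((2 * R + 1 : ℕ) : ℚ) i ^ 2 * (1 - yy ((2 * R + 1 : ℕ) : ℚ) i ^ 2)⁻¹) + yy ((2 * R + 1 : ℕ) : ℚ) i ^ 2 =
      -(yy ((2 * R + 1 : ℕ) : ℚ) i ^ 4 * (1 - yy ((2 * R + 1 : ℕ) : ℚ) i ^ 2)⁻¹) := by
    have hinv : (1 - yy ((2 * R + 1 : ℕ) : ℚ) i ^ 2) * (1 - yy ((2 * R + 1 : ℕ) : ℚ) i ^ 2)⁻¹ = 1 := mul_inv_cancel₀ n0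
    linear_combination (-yy ((2 * R + 1 : ℕ) : ℚ) i ^ 2) * hinv
  rw [e2]
  have h4 : I p 4 (yy ((2 * R + 1 : ℕ) : ℚ) i ^ 4) := by simpa using hy.pow 4
  exact (h4.mul_mem m0).neg

theorem ee_g (ha : 1 ≤ a) (hN : 2 * R + 1 = p ^ a) {n : ℕ} (hn : n < R) :
    I p 3 (ee R n + (1 / 4) * g ((2 * R + 1 : ℕ) : ℚ) (R - n) ^ 2) := by
  have h1 := ee_yy ha hN hn
  have h2 := (g_refl (p := p) ha hN (m := 2 * (R - n)) (by omega) (by omega)).2
  have h3 := (g_I (p := p) ha hN (m := 2 * (R - n)) (by omega) (by omega)).pow 3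
  have e1 : g ((2 * R + 1 : ℕ) : ℚ) (2 * R + 1 - 2 * (R - n)) = yy ((2 * R + 1 : ℕ) : ℚ) n := by
    unfold g yy
    rw [show 2 * R + 1 - 2 * (R - n) = 2 * n + 1 by omega]
    push_cast
    rfl
  have e2 := g_two ((2 * R + 1 : ℕ) : ℚ) (R - n)
  rw [e1] at h2
  set N : ℚ := ((2 * R + 1 : ℕ) : ℚ)
  set y := yy N n
  set G := g N (2 * (R - n))
  have e3 : g N (R - n) = 2 * G := by
    rw [e2]; ring
  rw [e3]
  have e4 : ee R n + 1 / 4 * (2 * G) ^ 2 = (ee R n + y ^ 2) - (y ^ 2 - G ^ 2 - 2 * G ^ 3) - 2 * G ^ 3 := by ring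
  rw [e4]
  have m2 : (2 : ℚ) ∈ Zp p := by exact_mod_cast nat_mem 2
  exact ((h1.mono (by norm_num)).sub (h2.mono (by norm_num))).sub (I.mem_mul m2 h3)

theorem KK_range (R : ℕ) : ∑ n ∈ range R, g ((2 * R + 1 : ℕ) : ℚ) (R - n) ^ 2 *
    ∑ i ∈ range n, (2 * (R : ℚ) + 1) / (i + 1) = KK ((2 * R + 1 : ℕ) : ℚ) R := by
  unfold KK
  rw [sum_comm]
  apply sum_nbij' (fun n => R - n) (fun s => R - s)
  · intro m hm; simp only [mem_Icc, mem_range] at hm ⊢; omega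
  · intro m hm; simp only [mem_Icc, mem_range] at hm ⊢; omega
  · intro m hm; simp only [mem_range] at hm; omega
  · intro m hm; simp only [mem_Icc] at hm; omega
  · intro n hn
    rw [mem_range] at hn
    rw [← sum_filter, mul_sum]
    apply sum_nbij' (fun i => i + 1) (fun i => i - 1)
    · intro m hm; simp only [mem_filter, mem_Icc, mem_range] at hm ⊢; omega
    · intro m hm; simp only [mem_filter, mem_Icc, mem_range] at hm ⊢; omega
    · intro m hm; simp only [mem_range] at hm; omega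
    · intro m hm; simp only [mem_filter, mem_Icc] at hm; omega
    · intro m hm
      unfold g
      push_cast
      ring

theorem SS_refl (R : ℕ) : ∑ n ∈ range R, g ((2 * R + 1 : ℕ) : ℚ) (R - n) ^ 2 = SS ((2 * R + 1 : ℕ) : ℚ) R := by
  unfold SS
  apply sum_nbij' (fun n => R - n) (fun s => R - s)
  · intro m hm; simp only [mem_Icc, mem_range] at hm ⊢; omega
  · intro m hm; simp only [mem_Icc, mem_range] at hm ⊢; omega
  · intro m hm; simp only [mem_range] at hm; omega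
  · intro m hm; simp only [mem_Icc] at hm; omega
  · intro n hn; rfl

theorem GG_I (ha : 1 ≤ a) (hN : 2 * R + 1 = p ^ a) :
    I p 4 (GG R - (1 / 2) * (LL ((2 * R + 1 : ℕ) : ℚ) R * SS ((2 * R + 1 : ℕ) : ℚ) R) - KK ((2 * R + 1 : ℕ) : ℚ) R) := by
  have l1 := L1 (p := p) ha hN
  have m2 : (2 : ℚ) ∈ Zp p := by exact_mod_cast nat_mem 2
  have s1 : I p 3 (∑ i ∈ range R, ee R i + (1 / 4) * SS ((2 * R + 1 : ℕ) : ℚ) R) := by
    rw [← SS_refl, mul_sum, ← sum_add_distrib]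
    apply I.sum
    intro n hn
    rw [mem_range] at hn
    exact ee_g ha hN hn
  have s2 : I p 4 ((-1) ^ R * ∑ n ∈ range R, W R n * ee R n * ∑ i ∈ range n, (2 * (R : ℚ) + 1) / (i + 1) +
      (1 / 2) * KK ((2 * R + 1 : ℕ) : ℚ) R) := by
    rw [← KK_range, mul_sum, mul_sum, ← sum_add_distrib]
    apply I.sum
    intro n hn
    rw [mem_range] at hn
    have h1 := ee_g ha hN hn
    have h2 := W_I ha hN hn
    have h3 : I p 1 (∑ i ∈ range n, (2 * (R : ℚ) + 1) / (i + 1)) := by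
      apply I.sum
      intro i hi
      rw [mem_range] at hi
      have := g1_I (p := p) ha hN (i := i) (by omega)
      push_cast at this
      exact this
    have h4 : I p 2 (ee R n) := by
      have hy := yy_I (p := p) ha hN hn
      have e : ee R n = (ee R n + yy ((2 * R + 1 : ℕ) : ℚ) n ^ 2) - yy ((2 * R + 1 : ℕ) : ℚ) n ^ 2 := by ring
      rw [e]
      exact ((ee_yy ha hN hn).mono (by norm_num)).sub (by simpa using hy.pow 2)
    set L := ∑ i ∈ range n, (2 * (R : ℚ) + 1) / (i + 1)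
    set G := g ((2 * R + 1 : ℕ) : ℚ) (R - n)
    have e : (-1) ^ R * (W R n * ee R n * L) + 1 / 2 * (G ^ 2 * L) =
        L * (((-1) ^ R * W R n - 2) * ee R n) + 2 * (L * (ee R n + 1 / 4 * G ^ 2)) := by ring
    rw [e]
    exact (h3.mul (h2.mul h4)).add (I.mem_mul m2 (h3.mul h1))
  rw [GG_eq, LL_range]
  set L := LL ((2 * R + 1 : ℕ) : ℚ) R
  set S := SS ((2 * R + 1 : ℕ) : ℚ) R
  set K := KK ((2 * R + 1 : ℕ) : ℚ) R
  set e := ∑ i ∈ range R, ee R i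
  set w := ∑ n ∈ range R, W R n * ee R n * ∑ i ∈ range n, (2 * (R : ℚ) + 1) / (i + 1)
  have e5 : -2 * L * e - 2 * (-1) ^ R * w - 1 / 2 * (L * S) - K =
      (-2) * (L * (e + 1 / 4 * S)) + (-2) * ((-1) ^ R * w + 1 / 2 * K) := by ring
  rw [e5]
  have m3 : (-2 : ℚ) ∈ Zp p := by exact_mod_cast int_mem (-2)
  exact (I.mem_mul m3 (l1.mul s1)).add (I.mem_mul m3 s2)

theorem A_main (ha : 1 ≤ a) (hN : 2 * R + 1 = p ^ a) :
    I p 4 (2 * (u R ^ 2 * gA R) - (2 - (1 / 2) * SS ((2 * R + 1 : ℕ) : ℚ) R +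
      (1 / 2) * (LL ((2 * R + 1 : ℕ) : ℚ) R * SS ((2 * R + 1 : ℕ) : ℚ) R) + KK ((2 * R + 1 : ℕ) : ℚ) R)) := by
  obtain ⟨h1, h2⟩ := gA_E (p := p) ha hN
  have h3 := uE (p := p) ha hN
  have h4 := uR_I (p := p) ha hN
  have h5 := GG_I (p := p) ha hN
  have m2 : (2 : ℚ) ∈ Zp p := by exact_mod_cast nat_mem 2
  set L := LL ((2 * R + 1 : ℕ) : ℚ) R
  set S := SS ((2 * R + 1 : ℕ) : ℚ) R
  set K := KK ((2 * R + 1 : ℕ) : ℚ) R
  have e : 2 * (u R ^ 2 * gA R) - (2 - 1 / 2 * S + 1 / 2 * (L * S) + K) =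
      2 * (u R ^ 2 * EE R - (1 - 1 / 4 * S)) + 2 * ((u R ^ 2 - 1) * (gA R - EE R)) +
      (2 * (gA R - EE R) - GG R) + (GG R - 1 / 2 * (L * S) - K) := by ring
  rw [e]
  exact (((I.mem_mul m2 h3).add (I.mem_mul m2 (h4.mul h2))).add h1).add h5

end Pool.Agent.L7h22.C42
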