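import Pool.Agent.L7h22.C42.PartA2

/-!
# The second sum modulo `p^{r+4}`
-/

set_option autoImplicit false

namespace Pool.Agent.L7h22.C42

open Finset Pool.Agent.Helper857.Pad Pool.Agent.Helper857.W

variable {p : ℕ} [hp : Fact p.Prime] {a R : ℕ}

/-- `κ = C(4R+1,2R)/4^{2R}` -/
def kap (R : ℕ) : ℚ := ((4 * R + 1).choose (2 * R) : ℚ) / 4 ^ (2 * R)

theorem kap_u (R : ℕ) : (4 * (R : ℚ) + 1) * u (2 * R) = ((2 * R + 1 : ℕ) : ℚ) * kap R := by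
  have h := Nat.choose_mul_succ_eq (4 * R) (2 * R)
  rw [show 4 * R + 1 - 2 * R = 2 * R + 1 by omega] at h
  have h1 := congrArg (Nat.cast : ℕ → ℚ) h
  push_cast at h1
  unfold u kap
  rw [show 2 * (2 * R) = 4 * R by ring]
  push_cast
  rw [mul_div_assoc', mul_div_assoc']
  congr 1
  linear_combination h1

theorem choose_prod2 (n m : ℕ) : ((n + m).choose m : ℚ) = ∏ i ∈ range m, (1 + (n : ℚ) / (i + 1)) := by
  induction m with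
  | zero => simp
  | succ m ih =>
    rw [prod_range_succ, ← ih]
    have h := Nat.add_one_mul_choose_eq (n + m) m
    have h1 := congrArg (Nat.cast : ℕ → ℚ) h
    push_cast at h1
    have h0 : ((m : ℚ) + 1) ≠ 0 := by positivity
    apply mul_right_cancel₀ h0
    rw [show n + (m + 1) = n + m + 1 by ring, ← h1]
    field_simp
    ring

/-- the pair sum -/
def Wb (R : ℕ) : ℚ := ∑ i ∈ range R, ((2 * R).choose (R - 1 - i) : ℚ) ^ 2 *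
  (((2 * R + 1 : ℕ) : ℚ) / (((2 * R + 1 : ℕ) : ℚ) - 2 * (i + 1)) + ((2 * R + 1 : ℕ) : ℚ) / (((2 * R + 1 : ℕ) : ℚ) + 2 * (i + 1)))

theorem bv_W (R : ℕ) : ((2 * R + 1 : ℕ) : ℚ) * bv (2 * R) = ((2 * R).choose R : ℚ) ^ 2 + Wb R := by
  unfold bv Wb
  rw [show 2 * R + 1 = R + 1 + R by ring, sum_range_add, sum_range_succ, ← sum_range_reflect, mul_add, mul_add]
  have e1 : ((R + 1 + R : ℕ) : ℚ) * (((2 * R).choose R : ℚ) ^ 2 / (2 * R + 1)) = ((2 * R).choose R : ℚ) ^ 2 := by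
    have : (2 * (R : ℚ) + 1) ≠ 0 := by positivity
    push_cast
    field_simp
    ring
  rw [e1]
  have e2 : ((R + 1 + R : ℕ) : ℚ) * ∑ j ∈ range R, ((2 * R).choose (R - 1 - j) : ℚ) ^ 2 / (2 * ((R - 1 - j : ℕ) : ℚ) + 1) +
      ((R + 1 + R : ℕ) : ℚ) * ∑ x ∈ range R, ((2 * R).choose (R + 1 + x) : ℚ) ^ 2 / (2 * ((R + 1 + x : ℕ) : ℚ) + 1) =
      ∑ i ∈ range R, ((2 * R).choose (R - 1 - i) : ℚ) ^ 2 *
      (((R + 1 + R : ℕ) : ℚ) / (((R + 1 + R : ℕ) : ℚ) - 2 * (i + 1)) + ((R + 1 + R : ℕ) : ℚ) / (((R + 1 + R : ℕ) : ℚ) + 2 * (i + 1))) := by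
    rw [mul_sum, mul_sum, ← sum_add_distrib]
    refine sum_congr rfl fun i hi => ?_
    rw [mem_range] at hi
    have h1 : (2 * R).choose (R + 1 + i) = (2 * R).choose (R - 1 - i) := by
      rw [← Nat.choose_symm (show R - 1 - i ≤ 2 * R by omega)]
      congr 1
      omega
    rw [h1]
    have h2 : ((R - 1 - i : ℕ) : ℚ) = (R : ℚ) - 1 - i := by
      rw [Nat.cast_sub (by omega), Nat.cast_sub (by omega)]
      push_cast; ring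
    rw [h2]
    have h3 : 2 * ((R : ℚ) - 1 - i) + 1 = ((R + 1 + R : ℕ) : ℚ) - 2 * (i + 1) := by push_cast; ring
    have h4 : 2 * ((R + 1 + i : ℕ) : ℚ) + 1 = ((R + 1 + R : ℕ) : ℚ) + 2 * (i + 1) := by push_cast; ring
    rw [h3, h4]
    ring
  rw [← e2]
  ring

theorem B_kap (R : ℕ) : ∑ k ∈ range (2 * R + 1), (3 * (k : ℚ) + 1) * u k ^ 3 * 4 ^ k =
    ((2 * R + 1 : ℕ) : ℚ) * (kap R ^ 2 * (((2 * R).choose R : ℚ) ^ 2 + Wb R)) := by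
  rw [B_exact, ← bv_W]
  have h := kap_u R
  push_cast at h ⊢
  linear_combination (bv (2 * R) * ((4 * (R : ℚ) + 1) * u (2 * R) + (2 * (R : ℚ) + 1) * kap R)) * h

/-- the factor `χ(g)·(1-g)^2` -/
def chi (g : ℚ) : ℚ := (1 + g) * (1 - 2 * g) * (1 - g / 2) ^ 2

/-- the product `D = ∏ (1-g_i)` -/
def DD (R : ℕ) : ℚ := ∏ i ∈ range R, (1 - ((2 * R + 1 : ℕ) : ℚ) / ((i : ℚ) + 1))

theorem g1_ne {i : ℕ} (hi : i < 2 * R) : (1 - ((2 * R + 1 : ℕ) : ℚ) / ((i : ℚ) + 1)) ≠ 0 := by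
  intro h
  have h0 : ((i : ℚ) + 1) ≠ 0 := by positivity
  field_simp at h
  have h1 : ((i : ℚ) + 1) = ((2 * R + 1 : ℕ) : ℚ) := by linarith
  have : i + 1 = 2 * R + 1 := by exact_mod_cast h1
  omega

theorem kap_prod (R : ℕ) : kap R * DD R ^ 2 = ∏ i ∈ range R,
    (chi (((2 * R + 1 : ℕ) : ℚ) / ((i : ℚ) + 1)) * (1 - ((2 * R + 1 : ℕ) : ℚ) / ((i : ℚ) + 1))⁻¹) := by
  have h1 : ((4 * R + 1).choose (2 * R) : ℚ) = ∏ i ∈ range R, ((1 + ((2 * R + 1 : ℕ) : ℚ) / (i + 1)) *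
      ((1 - 2 * (((2 * R + 1 : ℕ) : ℚ) / (i + 1))) * (1 - ((2 * R + 1 : ℕ) : ℚ) / (i + 1))⁻¹)) := by
    rw [show 4 * R + 1 = 2 * R + 1 + 2 * R by ring, choose_prod2]
    rw [show range (2 * R) = range (R + R) by rw [two_mul], prod_range_add, prod_mul_distrib]
    congr 1
    rw [← prod_range_reflect]
    refine prod_congr rfl fun i hi => ?_
    rw [mem_range] at hi
    have h2 : (((R + (R - 1 - i) : ℕ) : ℚ) + 1) = ((2 * R + 1 : ℕ) : ℚ) - (i + 1) := by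
      have : ((R - 1 - i : ℕ) : ℚ) = (R : ℚ) - 1 - i := by
        rw [Nat.cast_sub (by omega), Nat.cast_sub (by omega)]
        push_cast; ring
      rw [Nat.cast_add, this]
      push_cast
      ring
    rw [h2]
    have h3 := g1_ne (R := R) (i := i) (by omega)
    have h0 : ((i : ℚ) + 1) ≠ 0 := by positivity
    have h4 : ((2 * R + 1 : ℕ) : ℚ) - (i + 1) ≠ 0 := by
      intro h
      have : 2 * R + 1 = i + 1 := by
        have h5 : ((2 * R + 1 : ℕ) : ℚ) = ((i + 1 : ℕ) : ℚ) := by push_cast at h ⊢; linarith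
        exact_mod_cast h5
      omega
    rw [← div_eq_mul_inv, eq_div_iff h3]
    field_simp
    ring
  have h2 : ((2 * R).choose R : ℚ) ^ 2 = DD R ^ 2 := ch_sq R R
  have h3 : u R ^ 2 = ∏ i ∈ range R, (1 - ((2 * R + 1 : ℕ) : ℚ) / (i + 1) / 2) ^ 2 := by
    rw [u_prod, mul_pow, ← pow_mul, mul_comm R 2, pow_mul, neg_one_sq, one_pow, one_mul, ← prod_pow]
    refine prod_congr rfl fun i _ => ?_
    congr 1
    field_simp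
  have h4 : kap R * DD R ^ 2 = ((4 * R + 1).choose (2 * R) : ℚ) * u R ^ 2 := by
    rw [← h2]
    unfold kap u
    rw [div_pow, ← pow_mul, mul_comm R 2]
    ring
  rw [h4, h1, h3, ← prod_mul_distrib]
  refine prod_congr rfl fun i _ => ?_
  unfold chi
  ring

theorem kD_prod (R : ℕ) : kap R * DD R = ∏ i ∈ range R,
    (chi (((2 * R + 1 : ℕ) : ℚ) / ((i : ℚ) + 1)) * ((1 - ((2 * R + 1 : ℕ) : ℚ) / ((i : ℚ) + 1))⁻¹) ^ 2) := by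
  have h := kap_prod R
  have hD : DD R ≠ 0 := by
    unfold DD
    exact prod_ne_zero_iff.2 fun i hi => g1_ne (R := R) (by rw [mem_range] at hi; omega)
  have h2 : (∏ i ∈ range R, (1 - ((2 * R + 1 : ℕ) : ℚ) / ((i : ℚ) + 1))⁻¹) = (DD R)⁻¹ := by
    unfold DD
    rw [prod_inv_distrib]
  have h3 : ∏ i ∈ range R,
    (chi (((2 * R + 1 : ℕ) : ℚ) / ((i : ℚ) + 1)) * ((1 - ((2 * R + 1 : ℕ) : ℚ) / ((i : ℚ) + 1))⁻¹) ^ 2) =
    (∏ i ∈ range R, (chi (((2 * R + 1 : ℕ) : ℚ) / ((i : ℚ) + 1)) * (1 - ((2 * R + 1 : ℕ) : ℚ) / ((i : ℚ) + 1))⁻¹)) *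
    ∏ i ∈ range R, (1 - ((2 * R + 1 : ℕ) : ℚ) / ((i : ℚ) + 1))⁻¹ := by
    rw [← prod_mul_distrib]
    refine prod_congr rfl fun i _ => ?_
    ring
  rw [h3, ← h, h2]
  field_simp

theorem kap_prod3 (R : ℕ) : kap R = ∏ i ∈ range R,
    (chi (((2 * R + 1 : ℕ) : ℚ) / ((i : ℚ) + 1)) * ((1 - ((2 * R + 1 : ℕ) : ℚ) / ((i : ℚ) + 1))⁻¹) ^ 3) := by
  have h := kD_prod R
  have hD : DD R ≠ 0 := by
    unfold DD
    exact prod_ne_zero_iff.2 fun i hi => g1_ne (R := R) (by rw [mem_range] at hi; omega)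
  have h2 : (∏ i ∈ range R, (1 - ((2 * R + 1 : ℕ) : ℚ) / ((i : ℚ) + 1))⁻¹) = (DD R)⁻¹ := by
    unfold DD
    rw [prod_inv_distrib]
  have h3 : ∏ i ∈ range R,
    (chi (((2 * R + 1 : ℕ) : ℚ) / ((i : ℚ) + 1)) * ((1 - ((2 * R + 1 : ℕ) : ℚ) / ((i : ℚ) + 1))⁻¹) ^ 3) =
    (∏ i ∈ range R, (chi (((2 * R + 1 : ℕ) : ℚ) / ((i : ℚ) + 1)) * ((1 - ((2 * R + 1 : ℕ) : ℚ) / ((i : ℚ) + 1))⁻¹) ^ 2)) *
    ∏ i ∈ range R, (1 - ((2 * R + 1 : ℕ) : ℚ) / ((i : ℚ) + 1))⁻¹ := by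
    rw [← prod_mul_distrib]
    refine prod_congr rfl fun i _ => ?_
    ring
  rw [h3, ← h, h2]
  field_simp

theorem four_mem (ha : 1 ≤ a) (hN : 2 * R + 1 = p ^ a) : (4 : ℚ)⁻¹ ∈ Zp p := by
  have h := two_mem (p := p) ha hN
  have : (4 : ℚ)⁻¹ = (2 : ℚ)⁻¹ * (2 : ℚ)⁻¹ := by norm_num
  rw [this]
  exact (Zp p).mul_mem h h

theorem SS_range (R : ℕ) : SS ((2 * R + 1 : ℕ) : ℚ) R = ∑ i ∈ range R, (((2 * R + 1 : ℕ) : ℚ) / ((i : ℚ) + 1)) ^ 2 := by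
  unfold SS
  rw [sum_shift]
  refine sum_congr rfl fun i _ => ?_
  unfold g
  push_cast
  ring

theorem HH_range (R : ℕ) : HH ((2 * R + 1 : ℕ) : ℚ) R = ∑ i ∈ range R, (((2 * R + 1 : ℕ) : ℚ) / ((i : ℚ) + 1)) ^ 3 := by
  unfold HH
  rw [sum_shift]
  refine sum_congr rfl fun i _ => ?_
  unfold g
  push_cast
  ring

theorem LL_range' (R : ℕ) : LL ((2 * R + 1 : ℕ) : ℚ) R = ∑ i ∈ range R, (((2 * R + 1 : ℕ) : ℚ) / ((i : ℚ) + 1)) := by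
  unfold LL
  rw [sum_shift]
  refine sum_congr rfl fun i _ => ?_
  unfold g
  push_cast
  ring

theorem kD_I (ha : 1 ≤ a) (hN : 2 * R + 1 = p ^ a) :
    I p 4 (4 * (kap R * DD R) - (4 - 7 * (SS ((2 * R + 1 : ℕ) : ℚ) R + HH ((2 * R + 1 : ℕ) : ℚ) R))) ∧
    I p 2 (kap R * DD R - 1) := by
  have m4 := four_mem (p := p) ha hN
  have key : ∀ i < R, I p 4 (4 * (chi (((2 * R + 1 : ℕ) : ℚ) / ((i : ℚ) + 1)) * ((1 - ((2 * R + 1 : ℕ) : ℚ) / ((i : ℚ) + 1))⁻¹) ^ 2) -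
      (4 - 7 * ((((2 * R + 1 : ℕ) : ℚ) / ((i : ℚ) + 1)) ^ 2 + (((2 * R + 1 : ℕ) : ℚ) / ((i : ℚ) + 1)) ^ 3))) := by
    intro i hi
    have hg := g1_I (p := p) ha hN (i := i) (by omega)
    set x := ((2 * R + 1 : ℕ) : ℚ) / ((i : ℚ) + 1)
    obtain ⟨n0, m0, i0⟩ := unit (p := p) (x := 1 - x) (by
      have : 1 - x - 1 = -x := by ring
      rw [this]; exact hg.neg)
    have hinv : (1 - x) * (1 - x)⁻¹ = 1 := mul_inv_cancel₀ n0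
    set v := (1 - x)⁻¹
    have e : 4 * (chi x * v ^ 2) - (4 - 7 * (x ^ 2 + x ^ 3)) = x ^ 4 * ((7 * x - 9) * v ^ 2) := by
      unfold chi
      have h2 : ((1 - x) * v) ^ 2 = 1 := by rw [hinv]; ring
      linear_combination (4 - 7 * (x ^ 2 + x ^ 3)) * h2
    rw [e]
    have h4 : I p 4 (x ^ 4) := by simpa using hg.pow 4
    have m7 : (7 : ℚ) ∈ Zp p := by exact_mod_cast nat_mem 7
    have m9 : (9 : ℚ) ∈ Zp p := by exact_mod_cast nat_mem 9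
    exact h4.mul_mem ((Zp p).mul_mem ((Zp p).sub_mem ((Zp p).mul_mem m7 hg.mem) m9) ((Zp p).pow_mem m0 2))
  have key2 : ∀ i < R, I p 2 (1 - (chi (((2 * R + 1 : ℕ) : ℚ) / ((i : ℚ) + 1)) * ((1 - ((2 * R + 1 : ℕ) : ℚ) / ((i : ℚ) + 1))⁻¹) ^ 2)) := by
    intro i hi
    have h1 := key i hi
    have hg := g1_I (p := p) ha hN (i := i) (by omega)
    set x := ((2 * R + 1 : ℕ) : ℚ) / ((i : ℚ) + 1)
    set w := chi x * ((1 - x)⁻¹) ^ 2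
    have e : 1 - w = 4⁻¹ * ((7 * (x ^ 2 + x ^ 3)) - (4 * w - (4 - 7 * (x ^ 2 + x ^ 3)))) := by ring
    rw [e]
    have m7 : (7 : ℚ) ∈ Zp p := by exact_mod_cast nat_mem 7
    have h2 : I p 2 (x ^ 2) := by simpa using hg.pow 2
    have h3 : I p 3 (x ^ 3) := by simpa using hg.pow 3
    exact I.mem_mul m4 ((I.mem_mul m7 (h2.add (h3.mono (by norm_num)))).sub (h1.mono (by norm_num)))
  rw [kD_prod, SS_range, HH_range]
  have h5 := prod_one_sub (p := p) (m := 2)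
    (fun i => 1 - (chi (((2 * R + 1 : ℕ) : ℚ) / ((i : ℚ) + 1)) * ((1 - ((2 * R + 1 : ℕ) : ℚ) / ((i : ℚ) + 1))⁻¹) ^ 2)) R key2
  simp only [sub_sub_cancel] at h5
  set P := ∏ i ∈ range R, (chi (((2 * R + 1 : ℕ) : ℚ) / ((i : ℚ) + 1)) * ((1 - ((2 * R + 1 : ℕ) : ℚ) / ((i : ℚ) + 1))⁻¹) ^ 2)
  constructor
  · have e : 4 * P - (4 - 7 * (∑ i ∈ range R, (((2 * R + 1 : ℕ) : ℚ) / ((i : ℚ) + 1)) ^ 2 +
        ∑ i ∈ range R, (((2 * R + 1 : ℕ) : ℚ) / ((i : ℚ) + 1)) ^ 3)) =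
        4 * (P - (1 - ∑ i ∈ range R, (1 - (chi (((2 * R + 1 : ℕ) : ℚ) / ((i : ℚ) + 1)) *
          ((1 - ((2 * R + 1 : ℕ) : ℚ) / ((i : ℚ) + 1))⁻¹) ^ 2)))) +
        ∑ i ∈ range R, (4 * (chi (((2 * R + 1 : ℕ) : ℚ) / ((i : ℚ) + 1)) *
          ((1 - ((2 * R + 1 : ℕ) : ℚ) / ((i : ℚ) + 1))⁻¹) ^ 2) -
          (4 - 7 * ((((2 * R + 1 : ℕ) : ℚ) / ((i : ℚ) + 1)) ^ 2 + (((2 * R + 1 : ℕ) : ℚ) / ((i : ℚ) + 1)) ^ 3))) := by
      have e1 : ∑ i ∈ range R, (4 * (chi (((2 * R + 1 : ℕ) : ℚ) / ((i : ℚ) + 1)) *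
          ((1 - ((2 * R + 1 : ℕ) : ℚ) / ((i : ℚ) + 1))⁻¹) ^ 2) -
          (4 - 7 * ((((2 * R + 1 : ℕ) : ℚ) / ((i : ℚ) + 1)) ^ 2 + (((2 * R + 1 : ℕ) : ℚ) / ((i : ℚ) + 1)) ^ 3))) =
          -4 * ∑ i ∈ range R, (1 - (chi (((2 * R + 1 : ℕ) : ℚ) / ((i : ℚ) + 1)) *
          ((1 - ((2 * R + 1 : ℕ) : ℚ) / ((i : ℚ) + 1))⁻¹) ^ 2)) +
          7 * (∑ i ∈ range R, (((2 * R + 1 : ℕ) : ℚ) / ((i : ℚ) + 1)) ^ 2 +
        ∑ i ∈ range R, (((2 * R + 1 : ℕ) : ℚ) / ((i : ℚ) + 1)) ^ 3) := by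
        rw [mul_sum, ← sum_add_distrib, mul_sum, ← sum_add_distrib]
        refine sum_congr rfl fun i _ => ?_
        ring
      rw [e1]
      ring
    rw [e]
    refine (I.mem_mul (by exact_mod_cast nat_mem 4) h5).add (I.sum _ _ fun i hi => ?_)
    rw [mem_range] at hi
    exact key i hi
  · have e : P - 1 = (P - (1 - ∑ i ∈ range R, (1 - (chi (((2 * R + 1 : ℕ) : ℚ) / ((i : ℚ) + 1)) *
          ((1 - ((2 * R + 1 : ℕ) : ℚ) / ((i : ℚ) + 1))⁻¹) ^ 2)))) -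
          ∑ i ∈ range R, (1 - (chi (((2 * R + 1 : ℕ) : ℚ) / ((i : ℚ) + 1)) *
          ((1 - ((2 * R + 1 : ℕ) : ℚ) / ((i : ℚ) + 1))⁻¹) ^ 2)) := by ring
    rw [e]
    refine (h5.mono (by norm_num)).sub (I.sum _ _ fun i hi => ?_)
    rw [mem_range] at hi
    exact key2 i hi

theorem kap_I (ha : 1 ≤ a) (hN : 2 * R + 1 = p ^ a) :
    I p 2 (kap R - (1 + LL ((2 * R + 1 : ℕ) : ℚ) R)) := by
  have m4 := four_mem (p := p) ha hN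
  have key : ∀ i < R, I p 2 (chi (((2 * R + 1 : ℕ) : ℚ) / ((i : ℚ) + 1)) * ((1 - ((2 * R + 1 : ℕ) : ℚ) / ((i : ℚ) + 1))⁻¹) ^ 3 -
      (1 + ((2 * R + 1 : ℕ) : ℚ) / ((i : ℚ) + 1))) := by
    intro i hi
    have hg := g1_I (p := p) ha hN (i := i) (by omega)
    set x := ((2 * R + 1 : ℕ) : ℚ) / ((i : ℚ) + 1)
    obtain ⟨n0, m0, i0⟩ := unit (p := p) (x := 1 - x) (by
      have : 1 - x - 1 = -x := by ring
      rw [this]; exact hg.neg)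
    have hinv : (1 - x) * (1 - x)⁻¹ = 1 := mul_inv_cancel₀ n0
    set v := (1 - x)⁻¹
    have e : chi x * v ^ 3 - (1 + x) = x ^ 2 * (4⁻¹ * ((-3 - x + 2 * x ^ 2) * v ^ 3)) := by
      unfold chi
      have h2 : ((1 - x) * v) ^ 3 = 1 := by rw [hinv]; ring
      linear_combination (1 + x) * h2
    rw [e]
    have h4 : I p 2 (x ^ 2) := by simpa using hg.pow 2
    have m3 : (-3 : ℚ) ∈ Zp p := by exact_mod_cast int_mem (-3)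
    have m2 : (2 : ℚ) ∈ Zp p := by exact_mod_cast nat_mem 2
    exact h4.mul_mem ((Zp p).mul_mem m4 ((Zp p).mul_mem ((Zp p).add_mem ((Zp p).sub_mem m3 hg.mem)
      ((Zp p).mul_mem m2 ((Zp p).pow_mem hg.mem 2))) ((Zp p).pow_mem m0 3)))
  have key2 : ∀ i < R, I p 1 (1 - (chi (((2 * R + 1 : ℕ) : ℚ) / ((i : ℚ) + 1)) * ((1 - ((2 * R + 1 : ℕ) : ℚ) / ((i : ℚ) + 1))⁻¹) ^ 3)) := by
    intro i hi
    have h1 := key i hi
    have hg := g1_I (p := p) ha hN (i := i) (by omega)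
    set x := ((2 * R + 1 : ℕ) : ℚ) / ((i : ℚ) + 1)
    set w := chi x * ((1 - x)⁻¹) ^ 3
    have e : 1 - w = -x - (w - (1 + x)) := by ring
    rw [e]
    exact hg.neg.sub (h1.mono (by norm_num))
  rw [kap_prod3, LL_range']
  have h5 := prod_one_sub (p := p) (m := 1)
    (fun i => 1 - (chi (((2 * R + 1 : ℕ) : ℚ) / ((i : ℚ) + 1)) * ((1 - ((2 * R + 1 : ℕ) : ℚ) / ((i : ℚ) + 1))⁻¹) ^ 3)) R key2
  simp only [sub_sub_cancel] at h5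
  set P := ∏ i ∈ range R, (chi (((2 * R + 1 : ℕ) : ℚ) / ((i : ℚ) + 1)) * ((1 - ((2 * R + 1 : ℕ) : ℚ) / ((i : ℚ) + 1))⁻¹) ^ 3)
  have e : P - (1 + ∑ i ∈ range R, ((2 * R + 1 : ℕ) : ℚ) / ((i : ℚ) + 1)) =
      (P - (1 - ∑ i ∈ range R, (1 - (chi (((2 * R + 1 : ℕ) : ℚ) / ((i : ℚ) + 1)) *
        ((1 - ((2 * R + 1 : ℕ) : ℚ) / ((i : ℚ) + 1))⁻¹) ^ 3)))) +
      ∑ i ∈ range R, (chi (((2 * R + 1 : ℕ) : ℚ) / ((i : ℚ) + 1)) * ((1 - ((2 * R + 1 : ℕ) : ℚ) / ((i : ℚ) + 1))⁻¹) ^ 3 -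
      (1 + ((2 * R + 1 : ℕ) : ℚ) / ((i : ℚ) + 1))) := by
    have e1 : ∑ i ∈ range R, (chi (((2 * R + 1 : ℕ) : ℚ) / ((i : ℚ) + 1)) * ((1 - ((2 * R + 1 : ℕ) : ℚ) / ((i : ℚ) + 1))⁻¹) ^ 3 -
      (1 + ((2 * R + 1 : ℕ) : ℚ) / ((i : ℚ) + 1))) = - ∑ i ∈ range R, (1 - (chi (((2 * R + 1 : ℕ) : ℚ) / ((i : ℚ) + 1)) *
        ((1 - ((2 * R + 1 : ℕ) : ℚ) / ((i : ℚ) + 1))⁻¹) ^ 3)) - ∑ i ∈ range R, ((2 * R + 1 : ℕ) : ℚ) / ((i : ℚ) + 1) := by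
      rw [← sum_neg_distrib, ← sum_sub_distrib]
      refine sum_congr rfl fun i _ => ?_
      ring
    rw [e1]
    ring
  rw [e]
  refine h5.add (I.sum _ _ fun i hi => ?_)
  rw [mem_range] at hi
  exact key i hi

theorem KK_range2 (R : ℕ) : ∑ i ∈ range R, (((2 * R + 1 : ℕ) : ℚ) / ((i : ℚ) + 1)) ^ 2 *
    ∑ k ∈ range (R - 1 - i), (((2 * R + 1 : ℕ) : ℚ) / ((k : ℚ) + 1)) = KK ((2 * R + 1 : ℕ) : ℚ) R := by
  rw [← KK_range, ← sum_range_reflect]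
  refine sum_congr rfl fun i hi => ?_
  rw [mem_range] at hi
  congr 1
  · unfold g
    have : ((R - 1 - i : ℕ) : ℚ) + 1 = ((R - i : ℕ) : ℚ) := by
      rw [← Nat.cast_succ]
      congr 1
      omega
    rw [this]
  · rw [show R - 1 - (R - 1 - i) = i by omega]
    refine sum_congr rfl fun k _ => ?_
    push_cast
    ring

end Pool.Agent.L7h22.C42
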